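import Pool.Agent.H426.Sub.Pos

/-!
Finitely many general members such that every point outside the base loci avoids all members of
one of them.
-/

set_option autoImplicit false

namespace Pool.Agent.H426.Sub

open MvPolynomial Finset Module

section

variable {K : Type} [Field K] {n : ℕ}

/-- one member is replaced by a general combination of its generators -/
theorem step2 [Infinite K] {q N t : ℕ} {g r : Ideal (MvPolynomial (Fin n) K)}
    {a : Fin q → Ideal (MvPolynomial (Fin n) K)} (h : Pos g a N) (k : Fin q)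
    (P : Fin t → MvPolynomial (Fin n) K) (hP : a k = Ideal.span (Set.range P)) (hk : ¬ a k ≤ r) :
    ∃ c : Fin t → K, Pos g (Function.update a k (Ideal.span {∑ j, c j • P j})) N ∧
      ∑ j, c j • P j ∉ r := by
  classical
  set J : Finset (Fin q) → Ideal (MvPolynomial (Fin n) K) := fun I => g ⊔ ⨆ i ∈ I, a i with hJ
  set Qs : Set (Ideal (MvPolynomial (Fin n) K)) :=
    {r} ∪ ⋃ I : Finset (Fin q), {Q | Q ∈ (J I).minimalPrimes ∧ ¬ a k ≤ Q} with hQs
  have hfin : Qs.Finite := by
    refine (Set.finite_singleton _).union (Set.finite_iUnion fun I => ?_)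
    exact (Ideal.finite_minimalPrimes_of_isNoetherianRing _ (J I)).subset fun Q hQ => hQ.1
  set φ : (Fin t → K) →ₗ[K] MvPolynomial (Fin n) K :=
    { toFun := fun c => ∑ j, c j • P j
      map_add' := fun x y => by
        rw [← Finset.sum_add_distrib]
        exact Finset.sum_congr rfl fun j _ => by rw [Pi.add_apply, add_smul]
      map_smul' := fun r x => by
        rw [RingHom.id_apply, Finset.smul_sum]
        exact Finset.sum_congr rfl fun j _ => by rw [Pi.smul_apply, smul_assoc] } with hφ
  have hφa : ∀ c, φ c = ∑ j, c j • P j := fun c => rfl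
  set sub : Ideal (MvPolynomial (Fin n) K) → Subspace K (Fin t → K) := fun Q =>
    (Submodule.restrictScalars K Q).comap φ with hsub
  have hne : ∀ Q : Ideal (MvPolynomial (Fin n) K), ¬ a k ≤ Q → sub Q ≠ ⊤ := by
    intro Q hQ htop
    apply hQ
    rw [hP, Ideal.span_le]
    rintro _ ⟨j, rfl⟩
    have h1 : (Pi.single j (1 : K) : Fin t → K) ∈ sub Q := by
      rw [htop]
      exact Submodule.mem_top
    have h2 : φ (Pi.single j (1 : K)) ∈ Q := h1
    rw [hφa] at h2
    have h3 : ∑ i, (Pi.single j (1 : K) : Fin t → K) i • P i = P j := by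
      rw [Finset.sum_eq_single j]
      · rw [Pi.single_eq_same, one_smul]
      · intro i _ hi
        rw [Pi.single_eq_of_ne hi, zero_smul]
      · intro h
        exact absurd (Finset.mem_univ j) h
    rw [h3] at h2
    exact h2
  have hQk : ∀ Q ∈ Qs, ¬ a k ≤ Q := by
    rintro Q (rfl | hQ)
    · exact hk
    · obtain ⟨I, hI⟩ := Set.mem_iUnion.1 hQ
      exact hI.2
  set T : Finset (Subspace K (Fin t → K)) := hfin.toFinset.image sub with hT
  have htopT : (⊤ : Subspace K (Fin t → K)) ∉ T := by
    intro h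
    obtain ⟨Q, hQ, hQt⟩ := Finset.mem_image.1 h
    exact hne Q (hQk Q (hfin.mem_toFinset.1 hQ)) hQt
  have hcov := Subspace.biUnion_ne_univ_of_top_notMem htopT
  obtain ⟨c, hc⟩ := (Set.ne_univ_iff_exists_notMem _).1 hcov
  have hcQ : ∀ Q ∈ Qs, ∑ j, c j • P j ∉ Q := by
    intro Q hQ h1
    apply hc
    simp only [Set.mem_iUnion]
    exact ⟨sub Q, Finset.mem_image_of_mem _ (hfin.mem_toFinset.2 hQ), h1⟩
  refine ⟨c, ?_, hcQ r (Or.inl rfl)⟩
  intro I P' hI hP' hgP' haP'
  by_cases hkI : k ∈ I
  · have hH : ∑ j, c j • P j ∈ P' := by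
      have := haP' k hkI
      rw [Function.update_self] at this
      exact this (Ideal.subset_span rfl)
    set I' := I.erase k with hI'
    have hcard : I'.card + 1 = I.card := Finset.card_erase_add_one hkI
    have haI' : ∀ i ∈ I', a i ≤ P' := by
      intro i hi
      have h1 := haP' i (Finset.mem_of_mem_erase hi)
      rwa [Function.update_of_ne (Finset.ne_of_mem_erase hi)] at h1
    have hJP' : J I' ≤ P' := sup_le hgP' (iSup₂_le haI')
    obtain ⟨Q, hQ, hQP'⟩ := Ideal.exists_minimalPrimes_le hJP'
    have hQprime : Q.IsPrime := hQ.1.1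
    have hJQ : J I' ≤ Q := hQ.1.2
    have hgQ : g ≤ Q := le_sup_left.trans hJQ
    have haQ : ∀ i ∈ I', a i ≤ Q := fun i hi =>
      (le_iSup₂ (f := fun i (_ : i ∈ I') => a i) i hi).trans (le_sup_right.trans hJQ)
    have h1 := h I' Q (by omega) hQprime hgQ haQ
    rcases eq_or_lt_of_le hQP' with heq | hlt
    · by_cases hkQ : a k ≤ Q
      · refine h I P' hI hP' hgP' fun i hi => ?_
        by_cases hik : i = k
        · rw [hik, ← heq]; exact hkQ
        · exact haI' i (Finset.mem_erase.2 ⟨hik, hi⟩)
      · exfalso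
        refine hcQ Q (Or.inr (Set.mem_iUnion.2 ⟨I', hQ, hkQ⟩)) ?_
        rw [heq]
        exact hH
    · have h2 := Pool.Agent.H426.Ru.trdeg_quot_lt hlt
      have hf : Algebra.trdeg K (MvPolynomial (Fin n) K ⧸ Q) < Cardinal.aleph0 :=
        trdeg_lt_aleph0_of_finiteType
      obtain ⟨u, hu⟩ := Cardinal.lt_aleph0.1 hf
      obtain ⟨u', hu'⟩ := Cardinal.lt_aleph0.1 (h2.trans hf)
      rw [hu] at h1
      rw [hu, hu'] at h2
      rw [hu']
      have h3 : u + I'.card ≤ N + 1 := by exact_mod_cast h1
      have h4 : u' < u := by exact_mod_cast h2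
      exact_mod_cast (by omega : u' + I.card ≤ N + 1)
  · refine h I P' hI hP' hgP' fun i hi => ?_
    have h1 := haP' i hi
    have hik : i ≠ k := fun h => hkI (by rw [← h]; exact hi)
    rwa [Function.update_of_ne hik] at h1

/-- all members are replaced by general combinations -/
theorem choice2 [Infinite K] {q N : ℕ} {g r : Ideal (MvPolynomial (Fin n) K)}
    (t : Fin q → ℕ) (P : ∀ i, Fin (t i) → MvPolynomial (Fin n) K)
    (h : Pos g (fun i => Ideal.span (Set.range (P i))) N)
    (hk : ∀ i, ¬ Ideal.span (Set.range (P i)) ≤ r) :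
    ∃ c : ∀ i, Fin (t i) → K, Pos g (fun i => Ideal.span {∑ j, c i j • P i j}) N ∧
      ∀ i, ∑ j, c i j • P i j ∉ r := by
  classical
  have key : ∀ A : Finset (Fin q), ∃ c : ∀ i, Fin (t i) → K,
      Pos g (fun i => if i ∈ A then Ideal.span {∑ j, c i j • P i j}
        else Ideal.span (Set.range (P i))) N ∧ ∀ i ∈ A, ∑ j, c i j • P i j ∉ r := by
    intro A
    induction A using Finset.induction_on with
    | empty =>
      refine ⟨fun _ _ => 0, ?_, by simp⟩
      simpa using h
    | insert k A hkA ih =>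
      obtain ⟨c, hc, hcA⟩ := ih
      obtain ⟨b, hb, hbg⟩ := step2 (r := r) hc k (P k) (by simp [hkA]) (by
        simp only [hkA, if_false]
        exact hk k)
      refine ⟨Function.update c k b, ?_, ?_⟩
      · have heq : (fun i => if i ∈ insert k A then
            Ideal.span {∑ j, Function.update c k b i j • P i j}
            else Ideal.span (Set.range (P i))) =
            Function.update (fun i => if i ∈ A then Ideal.span {∑ j, c i j • P i j}
              else Ideal.span (Set.range (P i))) k (Ideal.span {∑ j, b j • P k j}) := by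
          funext i
          by_cases hik : i = k
          · subst hik
            simp
          · rw [Function.update_of_ne hik]
            simp [hik]
        rw [heq]
        exact hb
      · intro i hi
        by_cases hik : i = k
        · subst hik
          simpa using hbg
        · rw [Function.update_of_ne hik]
          exact hcA i ((Finset.mem_insert.1 hi).resolve_left hik)
  obtain ⟨c, hc, hcA⟩ := key Finset.univ
  exact ⟨c, by simpa using hc, fun i => hcA i (Finset.mem_univ i)⟩

/-- finitely many general members: a point outside the base loci avoids all members of one of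
them -/
theorem cover [Infinite K] {q N : ℕ} {g : Ideal (MvPolynomial (Fin n) K)}
    (t : Fin q → ℕ) (P : ∀ i, Fin (t i) → MvPolynomial (Fin n) K)
    (h : Pos g (fun i => Ideal.span (Set.range (P i))) N) (J : Ideal (MvPolynomial (Fin n) K)) :
    ∃ A : Finset (∀ i, Fin (t i) → K),
      (∀ c ∈ A, Pos g (fun i => Ideal.span {∑ j, c i j • P i j}) N) ∧
      ∀ (E : Type) [Field E] [Algebra K E] (x : Fin n → E), (∀ F ∈ J, aeval x F = 0) →
        (∀ i, ∃ j, aeval x (P i j) ≠ 0) → ∃ c ∈ A, ∀ i, aeval x (∑ j, c i j • P i j) ≠ 0 := by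
  classical
  induction J using WellFoundedGT.induction with
  | ind J ih =>
  -- the family of one prime
  have hone : ∀ Q : Ideal (MvPolynomial (Fin n) K), J ≤ Q →
      ∃ A : Finset (∀ i, Fin (t i) → K),
      (∀ c ∈ A, Pos g (fun i => Ideal.span {∑ j, c i j • P i j}) N) ∧
      ∀ (E : Type) [Field E] [Algebra K E] (x : Fin n → E), (∀ F ∈ Q, aeval x F = 0) →
        (∀ i, ∃ j, aeval x (P i j) ≠ 0) → ∃ c ∈ A, ∀ i, aeval x (∑ j, c i j • P i j) ≠ 0 := by
    intro Q hJQ
    by_cases hbase : ∃ i, Ideal.span (Set.range (P i)) ≤ Q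
    · obtain ⟨i, hi⟩ := hbase
      refine ⟨∅, by simp, fun E _ _ x hx hxP => ?_⟩
      obtain ⟨j, hj⟩ := hxP i
      exact absurd (hx _ (hi (Ideal.subset_span ⟨j, rfl⟩))) hj
    · push Not at hbase
      obtain ⟨c, hc, hcQ⟩ := choice2 (r := Q) t P h hbase
      have hlt : ∀ i, J < Q ⊔ Ideal.span {∑ j, c i j • P i j} := by
        intro i
        refine lt_of_le_of_ne (hJQ.trans le_sup_left) fun heq => ?_
        apply hcQ i
        apply hJQ
        rw [heq]
        exact (le_sup_right : _ ≤ Q ⊔ Ideal.span {∑ j, c i j • P i j}) (Ideal.subset_span rfl)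
      choose A hA hAx using fun i => ih _ (hlt i)
      refine ⟨insert c (Finset.univ.biUnion A), ?_, fun E _ _ x hx hxP => ?_⟩
      · intro c' hc'
        rcases Finset.mem_insert.1 hc' with rfl | hc'
        · exact hc
        · obtain ⟨i, -, hi⟩ := Finset.mem_biUnion.1 hc'
          exact hA i c' hi
      · by_cases hall : ∀ i, aeval x (∑ j, c i j • P i j) ≠ 0
        · exact ⟨c, Finset.mem_insert_self _ _, hall⟩
        · push Not at hall
          obtain ⟨i, hi⟩ := hall
          obtain ⟨c', hc', hx'⟩ := hAx i E x (by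
            intro F hF
            obtain ⟨a, ha, b, hb, rfl⟩ := Submodule.mem_sup.1 hF
            obtain ⟨b', rfl⟩ := Ideal.mem_span_singleton'.1 hb
            rw [map_add, map_mul, hi, mul_zero, hx a ha, add_zero]) hxP
          exact ⟨c', Finset.mem_insert_of_mem (Finset.mem_biUnion.2 ⟨i, Finset.mem_univ i, hc'⟩),
            hx'⟩
  have hfin := Ideal.finite_minimalPrimes_of_isNoetherianRing _ J
  choose A hA hAx using fun Q : J.minimalPrimes => hone Q.1 Q.2.1.2
  have : Finite J.minimalPrimes := hfin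
  have : Fintype J.minimalPrimes := Fintype.ofFinite _
  refine ⟨Finset.univ.biUnion A, ?_, fun E _ _ x hx hxP => ?_⟩
  · intro c hc
    obtain ⟨Q, -, hQ⟩ := Finset.mem_biUnion.1 hc
    exact hA Q c hQ
  · set φ : MvPolynomial (Fin n) K →ₐ[K] E := aeval x with hφ
    have hp : (RingHom.ker φ).IsPrime := RingHom.ker_isPrime φ
    have hJ : J ≤ RingHom.ker φ := fun F hF => hx F hF
    obtain ⟨Q, hQ, hQk⟩ := Ideal.exists_minimalPrimes_le hJ
    obtain ⟨c, hc, hcx⟩ := hAx ⟨Q, hQ⟩ E x (fun F hF => hQk hF) hxP
    exact ⟨c, Finset.mem_biUnion.2 ⟨⟨Q, hQ⟩, Finset.mem_univ _, hc⟩, hcx⟩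

end

end Pool.Agent.H426.Sub
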