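import Pool.Graph.R_seed8.W180.TP.Loc

/-!
Local heights of closed subschemes, uniformly in the extension field.
-/

set_option autoImplicit false

namespace Pool.Agent.H426.Sub

open MvPolynomial Finset NumberField Height
open Pool.Agent.W180.OP Pool.Agent.W180.TP

section

variable {K L : Type} [Field K] [Field L] [Algebra K L] {n : ℕ}

/-- the largest normalised value of the forms -/
noncomputable def big (f : AbsoluteValue L ℝ) {p : ℕ} (e : Fin p → ℕ)
    (w : Fin p → MvPolynomial (Fin n) K) (x : Fin n → L) : ℝ := ⨆ j, rho f (e j) (w j) x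

/-- the local height of the closed subscheme -/
noncomputable def slam (f : AbsoluteValue L ℝ) {p : ℕ} (e : Fin p → ℕ)
    (w : Fin p → MvPolynomial (Fin n) K) (x : Fin n → L) : ℝ := -Real.log (big f e w x)

lemma le_big (f : AbsoluteValue L ℝ) {p : ℕ} (e : Fin p → ℕ)
    (w : Fin p → MvPolynomial (Fin n) K) (x : Fin n → L) (j : Fin p) :
    rho f (e j) (w j) x ≤ big f e w x :=
  le_ciSup (f := fun j => rho f (e j) (w j) x) (Set.finite_range _).bddAbove j

lemma big_pos (f : AbsoluteValue L ℝ) {p : ℕ} (e : Fin p → ℕ)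
    (w : Fin p → MvPolynomial (Fin n) K) {x : Fin n → L} (hx : x ≠ 0)
    (hw : ∃ j, aeval x (w j) ≠ 0) : 0 < big f e w x := by
  obtain ⟨j, hj⟩ := hw
  exact (rho_pos f (e j) (w j) hx hj).trans_le (le_big f e w x j)

/-- the point with the norm one -/
lemma scale (f : AbsoluteValue L ℝ) {x : Fin n → L} (hx : x ≠ 0) :
    ∃ y : Fin n → L, (∀ j, f (y j) ≤ 1) ∧
      (∀ (F : MvPolynomial (Fin n) K) (t : ℕ), F.IsHomogeneous t →
        f (aeval y F) = rho f t F x ∧ (aeval x F = 0 → aeval y F = 0)) ∧ ∃ k, y k = 1 := by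
  classical
  have hn : 0 < n := by
    obtain ⟨j, _⟩ := Function.ne_iff.1 hx
    exact Fin.pos j
  obtain ⟨k, hk⟩ := exists_nrm f hn x
  have hpos := nrm_pos f hx
  have hhom : ∀ (F : MvPolynomial (Fin n) K) (t : ℕ), F.IsHomogeneous t →
      aeval ((x k)⁻¹ • x) F = (x k)⁻¹ ^ t * aeval x F := by
    intro F t hF
    rw [aeval_def, aeval_def, MvPolynomial.eval₂_eq, MvPolynomial.eval₂_eq, Finset.mul_sum]
    refine Finset.sum_congr rfl fun β hβ => ?_
    have hdeg : β.degree = t := by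
      have := hF (mem_support_iff.1 hβ)
      exact (DFunLike.congr_fun (Finsupp.degree_eq_weight_one (σ := Fin n) (R := ℕ)) β).trans this
    simp only [Pi.smul_apply, smul_eq_mul, mul_pow, Finset.prod_mul_distrib]
    rw [Finset.prod_pow_eq_pow_sum]
    have h2 : ∑ i ∈ β.support, β i = t := by rw [← hdeg]; rfl
    rw [h2]
    ring
  have hxk : x k ≠ 0 := fun h0 => by
    rw [h0, map_zero] at hk
    exact hpos.ne hk
  refine ⟨(x k)⁻¹ • x, fun j => ?_, fun F t hF => ⟨?_, fun h => ?_⟩, k, ?_⟩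
  · rw [Pi.smul_apply, smul_eq_mul, map_mul, map_inv₀, hk, inv_mul_le_iff₀ hpos, mul_one]
    exact le_nrm f x j
  · rw [hhom F t hF, map_mul, map_pow, map_inv₀, hk, inv_pow, mul_comm, rho, div_eq_mul_inv]
  · rw [hhom F t hF, h, mul_zero]
  · rw [Pi.smul_apply, smul_eq_mul, inv_mul_cancel₀ hxk]

end

section

variable {K : Type} [Field K] [NumberField K] {n : ℕ}

/-- a polynomial is bounded on the points of norm at most one -/
lemma poly_bd (F : MvPolynomial (Fin n) K) : ∃ C : ℝ, 0 ≤ C ∧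
    ∀ (L : Type) [Field L] [NumberField L] [Algebra K L] (p : Pl L), ∃ R : ℝ, UB C p R ∧
      ∀ y : Fin n → L, (∀ j, av p (y j) ≤ 1) → av p (aeval y F) ≤ R := by
  classical
  obtain ⟨C, hC0, hC⟩ := con_le fun β : F.support => F.coeff β.1
  refine ⟨C, hC0, fun L _ _ _ p => ?_⟩
  have hs0 : 0 ≤ ∑ k : F.support, av p (algebraMap K L (F.coeff k.1)) :=
    Finset.sum_nonneg fun _ _ => (av p).nonneg _
  refine ⟨1 + ∑ k : F.support, av p (algebraMap K L (F.coeff k.1)), ⟨by linarith, hC L p⟩,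
    fun y hy => ?_⟩
  have h1 : av p (aeval y F) ≤ ∑ k : F.support, av p (algebraMap K L (F.coeff k.1)) := by
    rw [aeval_def, MvPolynomial.eval₂_eq, ← Finset.sum_coe_sort F.support]
    refine ((av p).sum_le _ _).trans (Finset.sum_le_sum fun m _ => ?_)
    rw [map_mul, map_prod]
    refine mul_le_of_le_one_right ((av p).nonneg _) (Finset.prod_le_one
      (fun i _ => (av p).nonneg _) fun i _ => ?_)
    rw [map_pow]
    exact pow_le_one₀ ((av p).nonneg _) (hy i)
  linarith

/-- the bound for a member of the power of the ideal -/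
def Bd {p : ℕ} (w : Fin p → MvPolynomial (Fin n) K) (m : ℕ) (h : MvPolynomial (Fin n) K) : Prop :=
  ∃ C : ℝ, 0 ≤ C ∧ ∀ (L : Type) [Field L] [NumberField L] [Algebra K L] (p : Pl L),
    ∃ R : ℝ, UB C p R ∧ ∀ (y : Fin n → L) (B : ℝ), (∀ j, av p (y j) ≤ 1) →
      (∀ j, av p (aeval y (w j)) ≤ B) → 0 ≤ B → av p (aeval y h) ≤ R * B ^ m

lemma Bd.add {p : ℕ} {w : Fin p → MvPolynomial (Fin n) K} {m : ℕ} {h h' : MvPolynomial (Fin n) K}
    (H : Bd w m h) (H' : Bd w m h') : Bd w m (h + h') := by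
  obtain ⟨C, hC0, hC⟩ := H
  obtain ⟨C', hC'0, hC'⟩ := H'
  refine ⟨Real.log 2 + (C + C'), add_nonneg (Real.log_nonneg one_le_two) (add_nonneg hC0 hC'0),
    fun L _ _ _ p => ?_⟩
  obtain ⟨R, hR, h1⟩ := hC L p
  obtain ⟨R', hR', h2⟩ := hC' L p
  refine ⟨2 * (R * R'), (UB.const p one_le_two).mul (hR.mul hR'), fun y B hy hB hB0 => ?_⟩
  have h3 := h1 y B hy hB hB0
  have h4 := h2 y B hy hB hB0
  have hBm : 0 ≤ B ^ m := pow_nonneg hB0 m
  have h5 : R ≤ R * R' := le_mul_of_one_le_right (by linarith [hR.1]) hR'.1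
  have h6 : R' ≤ R * R' := le_mul_of_one_le_left (by linarith [hR'.1]) hR.1
  rw [map_add]
  refine ((av p).add_le _ _).trans ?_
  have h7 : R * B ^ m ≤ R * R' * B ^ m := mul_le_mul_of_nonneg_right h5 hBm
  have h8 : R' * B ^ m ≤ R * R' * B ^ m := mul_le_mul_of_nonneg_right h6 hBm
  linarith

/-- members of the powers of an ideal are small near its zeros -/
theorem pow_bd {p : ℕ} (w : Fin p → MvPolynomial (Fin n) K) (m : ℕ) :
    ∀ h ∈ Ideal.span (Set.range w) ^ m, Bd w m h := by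
  classical
  have hone : ∀ h ∈ Ideal.span (Set.range w), Bd w 1 h := by
    intro h hh
    refine Submodule.span_induction (p := fun h _ => Bd w 1 h) ?_ ?_ ?_ ?_ hh
    · rintro _ ⟨j, rfl⟩
      refine ⟨0, le_rfl, fun L _ _ _ p => ⟨1, ⟨le_rfl, by simp⟩, fun y B _ hB _ => ?_⟩⟩
      rw [pow_one, one_mul]
      exact hB j
    · refine ⟨0, le_rfl, fun L _ _ _ p => ⟨1, ⟨le_rfl, by simp⟩, fun y B _ _ hB => ?_⟩⟩
      rw [map_zero, map_zero, pow_one, one_mul]
      exact hB
    · intro a b _ _ ha hb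
      exact ha.add hb
    · rintro a b _ ⟨C, hC0, hC⟩
      obtain ⟨C', hC'0, hC'⟩ := poly_bd a
      refine ⟨C' + C, add_nonneg hC'0 hC0, fun L _ _ _ p => ?_⟩
      obtain ⟨R, hR, h1⟩ := hC L p
      obtain ⟨R', hR', h2⟩ := hC' L p
      refine ⟨R' * R, hR'.mul hR, fun y B hy hB hB0 => ?_⟩
      rw [smul_eq_mul, map_mul, map_mul, mul_assoc]
      exact mul_le_mul (h2 y hy) (h1 y B hy hB hB0) ((av p).nonneg _) (by linarith [hR'.1])
  induction m with
  | zero =>
    intro h _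
    obtain ⟨C, hC0, hC⟩ := poly_bd h
    refine ⟨C, hC0, fun L _ _ _ p => ?_⟩
    obtain ⟨R, hR, h1⟩ := hC L p
    refine ⟨R, hR, fun y B hy _ _ => ?_⟩
    rw [pow_zero, mul_one]
    exact h1 y hy
  | succ m ih =>
    intro h hh
    rw [pow_succ] at hh
    refine Submodule.mul_induction_on hh ?_ ?_
    · intro a ha b hb
      obtain ⟨C, hC0, hC⟩ := ih a ha
      obtain ⟨C', hC'0, hC'⟩ := hone b hb
      refine ⟨C + C', add_nonneg hC0 hC'0, fun L _ _ _ p => ?_⟩
      obtain ⟨R, hR, h1⟩ := hC L p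
      obtain ⟨R', hR', h2⟩ := hC' L p
      refine ⟨R * R', hR.mul hR', fun y B hy hB hB0 => ?_⟩
      rw [map_mul, map_mul, pow_succ]
      have h3 := mul_le_mul (h1 y B hy hB hB0) (h2 y B hy hB hB0) ((av p).nonneg _)
        (mul_nonneg (by linarith [hR.1]) (pow_nonneg hB0 _))
      rw [pow_one] at h3
      linarith
    · intro a b ha hb
      exact ha.add hb

/-- the local height of a form in the saturation of a power of the ideal -/
theorem lam_ge {p M : ℕ} (G : Fin M → MvPolynomial (Fin n) K)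
    (e : Fin p → ℕ) (w : Fin p → MvPolynomial (Fin n) K) (hw : ∀ j, (w j).IsHomogeneous (e j))
    (g : Fin M → ℕ) (hG : ∀ k, (G k).IsHomogeneous (g k)) {m d : ℕ} {H : MvPolynomial (Fin n) K}
    (hH : H.IsHomogeneous d) {a : ℕ}
    (hHI : ∀ k, X k ^ a * H ∈ Ideal.span (Set.range w) ^ m ⊔ Ideal.span (Set.range G)) :
    ∃ C : ℝ, 0 ≤ C ∧ ∀ (L : Type) [Field L] [NumberField L] [Algebra K L] (v : Pl L)
      (x : Fin n → L), x ≠ 0 → (∀ k, aeval x (G k) = 0) → aeval x H ≠ 0 →
      (∃ j, aeval x (w j) ≠ 0) → m * (wt v * slam (av v) e w x) ≤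
        wt v * lam (av v) d (bc L H) x + C * Module.finrank ℚ L := by
  classical
  choose A hA b hb hAb using fun k => Submodule.mem_sup.1 (hHI k)
  choose C hC0 hC using fun k => pow_bd w m (A k) (hA k)
  refine ⟨∑ k, C k, Finset.sum_nonneg fun k _ => hC0 k, fun L _ _ _ v x hx hGx hHx hwx => ?_⟩
  obtain ⟨y, hy, hyF, k, hk⟩ := scale (K := K) (av v) hx
  obtain ⟨R, hR, h1⟩ := hC k L v
  have hB := big_pos (av v) e w hx hwx
  have h2 := h1 y (big (av v) e w x) hy (fun j => by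
    rw [(hyF (w j) (e j) (hw j)).1]
    exact le_big (av v) e w x j) hB.le
  have hyG : ∀ k', aeval y (G k') = 0 := fun k' => (hyF (G k') (g k') (hG k')).2 (hGx k')
  have hyb : aeval y (b k) = 0 := by
    obtain ⟨A, hA⟩ := (Ideal.mem_span_range_iff_exists_fun).1 (hb k)
    rw [← hA, map_sum]
    exact Finset.sum_eq_zero fun k' _ => by rw [map_mul, hyG k', mul_zero]
  have hyH : aeval y H = aeval y (A k) := by
    have h3 := congrArg (aeval y) (hAb k)
    rw [map_add, hyb, add_zero, map_mul, map_pow, aeval_X, hk, one_pow, one_mul] at h3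
    exact h3.symm
  have h3 : rho (av v) d H x ≤ R * big (av v) e w x ^ m := by
    rw [← (hyF H d hH).1, hyH]
    exact h2
  have h4 : 0 < rho (av v) d H x := rho_pos (av v) d H hx hHx
  have hR0 : 0 < R := by linarith [hR.1]
  have h5 := Real.log_le_log h4 h3
  rw [Real.log_mul hR0.ne' (pow_pos hB _).ne', Real.log_pow] at h5
  have h6 := mul_le_mul_of_nonneg_left h5 (wt_nonneg v)
  rw [lam_rho, slam]
  have h7 := hR.2
  have h8 : C k * Module.finrank ℚ L ≤ (∑ k, C k) * Module.finrank ℚ L :=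
    mul_le_mul_of_nonneg_right (Finset.single_le_sum (f := C) (fun k _ => hC0 k)
      (Finset.mem_univ k)) (Nat.cast_nonneg _)
  linarith

/-- the local height is at most that of each form -/
theorem slam_le {L : Type} [Field L] [NumberField L] [Algebra K L] (v : Pl L) {p : ℕ}
    (e : Fin p → ℕ) (w : Fin p → MvPolynomial (Fin n) K) {x : Fin n → L} (hx : x ≠ 0) (j : Fin p)
    (hj : aeval x (w j) ≠ 0) : slam (av v) e w x ≤ lam (av v) (e j) (bc L (w j)) x := by
  have h3 := Real.log_le_log (rho_pos (av v) (e j) (w j) hx hj) (le_big (av v) e w x j)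
  rw [lam_rho, slam]
  linarith

/-- the local height is bounded below -/
theorem slam_ge {p : ℕ} (e : Fin p → ℕ)
    (w : Fin p → MvPolynomial (Fin n) K) (hw : ∀ j, (w j).IsHomogeneous (e j)) :
    ∃ C : ℝ, 0 ≤ C ∧ ∀ (L : Type) [Field L] [NumberField L] [Algebra K L] (v : Pl L)
      (x : Fin n → L), x ≠ 0 → (∃ j, aeval x (w j) ≠ 0) →
      -(C * Module.finrank ℚ L) ≤ wt v * slam (av v) e w x := by
  classical
  choose C hC0 hC using fun j => poly_bd (w j)
  refine ⟨∑ j, C j, Finset.sum_nonneg fun j _ => hC0 j, fun L _ _ _ v x hx hwx => ?_⟩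
  choose R hR h1 using fun j => hC j L v
  have hB := big_pos (av v) e w hx hwx
  obtain ⟨y, hy, hyF, -⟩ := scale (K := K) (av v) hx
  have h2 : big (av v) e w x ≤ ∏ j, R j := by
    obtain ⟨j0, _⟩ := hwx
    have : Nonempty (Fin p) := ⟨j0⟩
    refine ciSup_le fun j => ?_
    rw [← (hyF (w j) (e j) (hw j)).1]
    exact (h1 j y hy).trans (UB.le_prod (s := Finset.univ) (fun j _ => hR j) (Finset.mem_univ j))
  have h3 := Real.log_le_log hB h2
  have h4 := mul_le_mul_of_nonneg_left h3 (wt_nonneg v)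
  have h5 := (UB.prod Finset.univ fun j _ => hR j).2
  rw [slam]
  linarith

end

end Pool.Agent.H426.Sub
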