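import Pool.Agent.H426.Ru.Prin

/-!
Ideals in subgeneral position and the choice of general members.
-/

set_option autoImplicit false

namespace Pool.Agent.H426.Sub

open MvPolynomial Finset Module
open Pool.Agent.H426.Ru (trdeg_quot_lt HG cone tr_CX one_le_trdeg_of_tr)

section

variable {K : Type} [Field K] {n : ℕ}

/-- the ideals are in subgeneral position on the variety of the first ideal -/
def Pos {q : ℕ} (g : Ideal (MvPolynomial (Fin n) K)) (a : Fin q → Ideal (MvPolynomial (Fin n) K))
    (N : ℕ) : Prop :=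
  ∀ (I : Finset (Fin q)) (P : Ideal (MvPolynomial (Fin n) K)), I.card ≤ N + 1 → P.IsPrime →
    g ≤ P → (∀ i ∈ I, a i ≤ P) →
    Algebra.trdeg K (MvPolynomial (Fin n) K ⧸ P) + I.card ≤ (N + 1 : ℕ)

/-- one member is replaced by a general combination of its generators -/
theorem step [Infinite K] {q N t : ℕ} {g : Ideal (MvPolynomial (Fin n) K)} (hg : g.IsPrime)
    {a : Fin q → Ideal (MvPolynomial (Fin n) K)} (h : Pos g a N) (k : Fin q)
    (P : Fin t → MvPolynomial (Fin n) K) (hP : a k = Ideal.span (Set.range P)) (hk : ¬ a k ≤ g) :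
    ∃ c : Fin t → K, Pos g (Function.update a k (Ideal.span {∑ j, c j • P j})) N ∧
      ∑ j, c j • P j ∉ g := by
  classical
  set J : Finset (Fin q) → Ideal (MvPolynomial (Fin n) K) := fun I => g ⊔ ⨆ i ∈ I, a i with hJ
  set Qs : Set (Ideal (MvPolynomial (Fin n) K)) :=
    {g} ∪ ⋃ I : Finset (Fin q), {Q | Q ∈ (J I).minimalPrimes ∧ ¬ a k ≤ Q} with hQs
  have hfin : Qs.Finite := by
    refine (Set.finite_singleton _).union (Set.finite_iUnion fun I => ?_)
    exact (Ideal.finite_minimalPrimes_of_isNoetherianRing _ (J I)).subset fun Q hQ => hQ.1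
  set φ : (Fin t → K) →ₗ[K] MvPolynomial (Fin n) K :=
    { toFun := fun c => ∑ j, c j • P j
      map_add' := fun x y => by
        rw [← Finset.sum_add_distrib]
        exact Finset.sum_congr rfl fun j _ => by rw [Pi.add_apply, add_smul]
      map_smul' := fun r x => by
        rw [RingHom.id_apply, Finset.smul_sum]
        exact Finset.sum_congr rfl fun j _ => by rw [Pi.smul_apply, smul_assoc] } with hφ
  have hφa : ∀ c, φ c = ∑ j, c j • P j := fun c => rfl
  set sub : Ideal (MvPolynomial (Fin n) K) → Subspace K (Fin t → K) := fun Q =>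
    (Submodule.restrictScalars K Q).comap φ with hsub
  have hne : ∀ Q : Ideal (MvPolynomial (Fin n) K), ¬ a k ≤ Q → sub Q ≠ ⊤ := by
    intro Q hQ htop
    apply hQ
    rw [hP, Ideal.span_le]
    rintro _ ⟨j, rfl⟩
    have h1 : (Pi.single j (1 : K) : Fin t → K) ∈ sub Q := by
      rw [htop]
      exact Submodule.mem_top
    have h2 : φ (Pi.single j (1 : K)) ∈ Q := h1
    rw [hφa] at h2
    have h3 : ∑ i, (Pi.single j (1 : K) : Fin t → K) i • P i = P j := by
      rw [Finset.sum_eq_single j]
      · rw [Pi.single_eq_same, one_smul]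
      · intro i _ hi
        rw [Pi.single_eq_of_ne hi, zero_smul]
      · intro h
        exact absurd (Finset.mem_univ j) h
    rw [h3] at h2
    exact h2
  have hQk : ∀ Q ∈ Qs, ¬ a k ≤ Q := by
    rintro Q (rfl | hQ)
    · exact hk
    · obtain ⟨I, hI⟩ := Set.mem_iUnion.1 hQ
      exact hI.2
  set T : Finset (Subspace K (Fin t → K)) := hfin.toFinset.image sub with hT
  have htopT : (⊤ : Subspace K (Fin t → K)) ∉ T := by
    intro h
    obtain ⟨Q, hQ, hQt⟩ := Finset.mem_image.1 h
    exact hne Q (hQk Q (hfin.mem_toFinset.1 hQ)) hQt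
  have hcov := Subspace.biUnion_ne_univ_of_top_notMem htopT
  obtain ⟨c, hc⟩ := (Set.ne_univ_iff_exists_notMem _).1 hcov
  have hcQ : ∀ Q ∈ Qs, ∑ j, c j • P j ∉ Q := by
    intro Q hQ h1
    apply hc
    simp only [Set.mem_iUnion]
    exact ⟨sub Q, Finset.mem_image_of_mem _ (hfin.mem_toFinset.2 hQ), h1⟩
  refine ⟨c, ?_, hcQ g (Or.inl rfl)⟩
  intro I P' hI hP' hgP' haP'
  by_cases hkI : k ∈ I
  · have hH : ∑ j, c j • P j ∈ P' := by
      have := haP' k hkI
      rw [Function.update_self] at this
      exact this (Ideal.subset_span rfl)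
    set I' := I.erase k with hI'
    have hcard : I'.card + 1 = I.card := Finset.card_erase_add_one hkI
    have haI' : ∀ i ∈ I', a i ≤ P' := by
      intro i hi
      have h1 := haP' i (Finset.mem_of_mem_erase hi)
      rwa [Function.update_of_ne (Finset.ne_of_mem_erase hi)] at h1
    have hJP' : J I' ≤ P' := sup_le hgP' (iSup₂_le haI')
    obtain ⟨Q, hQ, hQP'⟩ := Ideal.exists_minimalPrimes_le hJP'
    have hQprime : Q.IsPrime := hQ.1.1
    have hJQ : J I' ≤ Q := hQ.1.2
    have hgQ : g ≤ Q := le_sup_left.trans hJQ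
    have haQ : ∀ i ∈ I', a i ≤ Q := fun i hi =>
      (le_iSup₂ (f := fun i (_ : i ∈ I') => a i) i hi).trans (le_sup_right.trans hJQ)
    have h1 := h I' Q (by omega) hQprime hgQ haQ
    rcases eq_or_lt_of_le hQP' with heq | hlt
    · by_cases hkQ : a k ≤ Q
      · refine h I P' hI hP' hgP' fun i hi => ?_
        by_cases hik : i = k
        · rw [hik, ← heq]; exact hkQ
        · exact haI' i (Finset.mem_erase.2 ⟨hik, hi⟩)
      · exfalso
        refine hcQ Q (Or.inr (Set.mem_iUnion.2 ⟨I', hQ, hkQ⟩)) ?_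
        rw [heq]
        exact hH
    · have h2 := trdeg_quot_lt hlt
      have hf : Algebra.trdeg K (MvPolynomial (Fin n) K ⧸ Q) < Cardinal.aleph0 :=
        trdeg_lt_aleph0_of_finiteType
      obtain ⟨u, hu⟩ := Cardinal.lt_aleph0.1 hf
      obtain ⟨u', hu'⟩ := Cardinal.lt_aleph0.1 (h2.trans hf)
      rw [hu] at h1
      rw [hu, hu'] at h2
      rw [hu']
      have h3 : u + I'.card ≤ N + 1 := by exact_mod_cast h1
      have h4 : u' < u := by exact_mod_cast h2
      exact_mod_cast (by omega : u' + I.card ≤ N + 1)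
  · refine h I P' hI hP' hgP' fun i hi => ?_
    have h1 := haP' i hi
    have hik : i ≠ k := fun h => hkI (by rw [← h]; exact hi)
    rwa [Function.update_of_ne hik] at h1

/-- all members are replaced by general combinations -/
theorem choice [Infinite K] {q N : ℕ} {g : Ideal (MvPolynomial (Fin n) K)} (hg : g.IsPrime)
    (t : Fin q → ℕ) (P : ∀ i, Fin (t i) → MvPolynomial (Fin n) K)
    (h : Pos g (fun i => Ideal.span (Set.range (P i))) N)
    (hk : ∀ i, ¬ Ideal.span (Set.range (P i)) ≤ g) :
    ∃ c : ∀ i, Fin (t i) → K, Pos g (fun i => Ideal.span {∑ j, c i j • P i j}) N ∧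
      ∀ i, ∑ j, c i j • P i j ∉ g := by
  classical
  have key : ∀ A : Finset (Fin q), ∃ c : ∀ i, Fin (t i) → K,
      Pos g (fun i => if i ∈ A then Ideal.span {∑ j, c i j • P i j}
        else Ideal.span (Set.range (P i))) N ∧ ∀ i ∈ A, ∑ j, c i j • P i j ∉ g := by
    intro A
    induction A using Finset.induction_on with
    | empty =>
      refine ⟨fun _ _ => 0, ?_, by simp⟩
      simpa using h
    | insert k A hkA ih =>
      obtain ⟨c, hc, hcA⟩ := ih
      obtain ⟨b, hb, hbg⟩ := step hg hc k (P k) (by simp [hkA]) (by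
        simp only [hkA, if_false]
        exact hk k)
      refine ⟨Function.update c k b, ?_, ?_⟩
      · have heq : (fun i => if i ∈ insert k A then
            Ideal.span {∑ j, Function.update c k b i j • P i j}
            else Ideal.span (Set.range (P i))) =
            Function.update (fun i => if i ∈ A then Ideal.span {∑ j, c i j • P i j}
              else Ideal.span (Set.range (P i))) k (Ideal.span {∑ j, b j • P k j}) := by
          funext i
          by_cases hik : i = k
          · subst hik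
            simp
          · rw [Function.update_of_ne hik]
            simp [hik]
        rw [heq]
        exact hb
      · intro i hi
        by_cases hik : i = k
        · subst hik
          simpa using hbg
        · rw [Function.update_of_ne hik]
          exact hcA i ((Finset.mem_insert.1 hi).resolve_left hik)
  obtain ⟨c, hc, hcA⟩ := key Finset.univ
  exact ⟨c, by simpa using hc, fun i => hcA i (Finset.mem_univ i)⟩

/-- no `N + 1` members have a common point -/
theorem Pos.no_point {q N : ℕ} {m : ℕ} {G : Fin m → MvPolynomial (Fin n) K} {g : Fin m → ℕ}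
    (hG : ∀ k, (G k).IsHomogeneous (g k)) {H : Fin q → MvPolynomial (Fin n) K} {d : Fin q → ℕ}
    (hH : ∀ i, (H i).IsHomogeneous (d i))
    (h : Pos (Ideal.span (Set.range G)) (fun i => Ideal.span {H i}) N) (J : Fin (N + 1) ↪ Fin q)
    (E : Type) [Field E] [Algebra K E] (x : Fin n → E) (hGx : ∀ k, aeval x (G k) = 0)
    (hHx : ∀ k, aeval x (H (J k)) = 0) : x = 0 := by
  classical
  by_contra hx0
  obtain ⟨j, hj⟩ := Function.ne_iff.1 hx0
  set φ : MvPolynomial (Fin n) K →ₐ[K] Polynomial E :=
    aeval (fun i => Polynomial.C (x i) * Polynomial.X : Fin n → Polynomial E) with hφ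
  have hker : ∀ (F : MvPolynomial (Fin n) K) (d : ℕ), F.IsHomogeneous d → aeval x F = 0 →
      φ F = 0 := by
    intro F d hF hF0
    have hI : HG (Ideal.span {F} : Ideal (MvPolynomial (Fin n) K)) :=
      ⟨1, fun _ => F, fun _ => d, fun _ => hF, by simp⟩
    exact cone hI x (by
      intro p hp
      obtain ⟨c, rfl⟩ := Ideal.mem_span_singleton'.1 hp
      rw [map_mul, hF0, mul_zero]) F (Ideal.subset_span rfl)
  set P : Ideal (MvPolynomial (Fin n) K) := RingHom.ker φ with hP
  have hPp : P.IsPrime := RingHom.ker_isPrime φ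
  have h1 := h (Finset.univ.map J) P (by simp) hPp (by
    rw [Ideal.span_le]
    rintro _ ⟨k, rfl⟩
    exact hker _ _ (hG k) (hGx k)) (by
    intro i hi
    obtain ⟨k, -, rfl⟩ := Finset.mem_map.1 hi
    rw [Ideal.span_le]
    rintro _ rfl
    exact hker _ _ (hH _) (hHx k))
  have htr : Transcendental K (Ideal.Quotient.mkₐ K P (X j)) := by
    intro halg
    set ψ : (MvPolynomial (Fin n) K ⧸ P) →ₐ[K] Polynomial E :=
      Ideal.Quotient.liftₐ P φ (fun a ha => ha) with hψ
    have h2 := halg.algHom ψ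
    have h3 : ψ (Ideal.Quotient.mkₐ K P (X j)) = Polynomial.C (x j) * Polynomial.X := by
      have e2 := DFunLike.congr_fun (Ideal.Quotient.liftₐ_comp P φ (fun a ha => ha)) (X j)
      have e3 : φ (X j) = Polynomial.C (x j) * Polynomial.X := by rw [hφ, aeval_X]
      exact e2.trans e3
    rw [h3] at h2
    exact tr_CX hj h2
  have h2 := (one_le_trdeg_of_tr htr).cardinalMk_le_trdeg
  have h3 : (1 : Cardinal) ≤ Algebra.trdeg K (MvPolynomial (Fin n) K ⧸ P) := by
    simpa using h2
  rw [Finset.card_map, Finset.card_univ, Fintype.card_fin] at h1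
  have h4 : (1 : Cardinal) + ((N + 1 : ℕ) : Cardinal) ≤ ((N + 1 : ℕ) : Cardinal) :=
    (add_le_add_left h3 _).trans h1
  have h5 : 1 + (N + 1) ≤ N + 1 := by exact_mod_cast h4
  omega

/-- the generic point -/
lemma generic (Q : Ideal (MvPolynomial (Fin n) K)) [Q.IsPrime] :
    ∃ (L : Type) (_ : Field L) (_ : Algebra K L) (x : Fin n → L),
      (∀ F : MvPolynomial (Fin n) K, aeval x F = 0 ↔ F ∈ Q) ∧
      (x = 0 → Algebra.trdeg K (MvPolynomial (Fin n) K ⧸ Q) = 0) := by
  classical
  set L := FractionRing (MvPolynomial (Fin n) K ⧸ Q)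
  set φ : MvPolynomial (Fin n) K →ₐ[K] L :=
    (IsScalarTower.toAlgHom K (MvPolynomial (Fin n) K ⧸ Q) L).comp (Ideal.Quotient.mkₐ K Q)
    with hφ
  have hφ0 : ∀ F : MvPolynomial (Fin n) K, φ F = 0 ↔ F ∈ Q := by
    intro F
    rw [hφ]
    simp only [AlgHom.comp_apply, Ideal.Quotient.mkₐ_eq_mk]
    rw [← Ideal.Quotient.eq_zero_iff_mem]
    constructor
    · intro hh
      exact (IsFractionRing.injective (MvPolynomial (Fin n) K ⧸ Q) L)
        (by simpa using hh)
    · intro hh
      rw [hh, map_zero]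
  have hae : ∀ F : MvPolynomial (Fin n) K, aeval (fun i => φ (X i)) F = φ F := by
    intro F
    have : aeval (fun i => φ (X i)) = φ := by
      apply MvPolynomial.algHom_ext
      intro i
      simp
    rw [this]
  refine ⟨L, inferInstance, inferInstance, fun i => φ (X i), fun F => by rw [hae, hφ0],
    fun hx => ?_⟩
  have hX : ∀ i, (X i : MvPolynomial (Fin n) K) ∈ Q := fun i => (hφ0 _).1 (congrFun hx i)
  have hsurj : Function.Surjective (algebraMap K (MvPolynomial (Fin n) K ⧸ Q)) := by
    intro y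
    obtain ⟨F, rfl⟩ := Ideal.Quotient.mk_surjective y
    refine ⟨constantCoeff F, ?_⟩
    have h1 : Ideal.Quotient.mkₐ K Q = (Algebra.ofId K (MvPolynomial (Fin n) K ⧸ Q)).comp
        (aeval (fun _ => (0 : K))) := by
      apply MvPolynomial.algHom_ext
      intro i
      rw [AlgHom.comp_apply, aeval_X, map_zero]
      exact Ideal.Quotient.eq_zero_iff_mem.2 (hX i)
    have h2 := DFunLike.congr_fun h1 F
    rw [AlgHom.comp_apply] at h2
    have h3 : aeval (fun _ => (0 : K)) F = constantCoeff F := by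
      rw [aeval_def, eval₂_eq_eval_map]
      simp [constantCoeff_eq]
    rw [h3] at h2
    exact h2.symm
  have halg : Algebra.IsAlgebraic K (MvPolynomial (Fin n) K ⧸ Q) := by
    refine ⟨fun y => ?_⟩
    obtain ⟨c, rfl⟩ := hsurj y
    exact isAlgebraic_algebraMap c
  exact trdeg_eq_zero

/-- the position of the base loci -/
theorem pos_of {q N m : ℕ} {G : Fin m → MvPolynomial (Fin n) K}
    (p : Fin q → ℕ) (w : ∀ i, Fin (p i) → MvPolynomial (Fin n) K)
    (h : Pos (Ideal.span (Set.range G)) (fun i => Ideal.span (Set.range (w i))) N)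
    (t : Fin q → ℕ) (P : ∀ i, Fin (t i) → MvPolynomial (Fin n) K)
    (hP : ∀ i, ∀ (E : Type) [Field E] [Algebra K E] (x : Fin n → E), x ≠ 0 →
      (∀ k, aeval x (G k) = 0) → (∀ j, aeval x (P i j) = 0) → ∀ j, aeval x (w i j) = 0) :
    Pos (Ideal.span (Set.range G)) (fun i => Ideal.span (Set.range (P i))) N := by
  classical
  intro I Q hI hQ hGQ hPQ
  obtain ⟨L, _, _, x, hx, hx0⟩ := generic Q
  by_cases h0 : x = 0
  · rw [hx0 h0, zero_add]
    exact_mod_cast hI
  · refine h I Q hI hQ hGQ fun i hi => ?_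
    rw [Ideal.span_le]
    rintro _ ⟨j, rfl⟩
    exact (hx _).1 (hP i L x h0 (fun k => (hx _).2 (hGQ (Ideal.subset_span ⟨k, rfl⟩)))
      (fun j => (hx _).2 (hPQ i hi (Ideal.subset_span ⟨j, rfl⟩))) j)

end

end Pool.Agent.H426.Sub
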