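import Pool.Agent.H426.Noc.NRed
import Pool.Agent.H426.Sub.Pos
import Pool.Agent.H426.Sub.Loc

/-!
The sharp Schmidt-Nochka theorem for closed subschemes, for the points of bounded degree.
-/

set_option autoImplicit false

namespace Pool.Agent.H426.Sub

open MvPolynomial Finset Module NumberField IsDedekindDomain Height
open Pool.Agent.W180.OP Pool.Agent.W180.TP Pool.Agent.NH28
open Pool.Agent.H426.Two Pool.Agent.H426.Noc

variable {K : Type} [Field K] [NumberField K]

/-- on `X` the forms of degree `d` in the saturation of the `m`-th power of the ideal of `W` have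
no common zeros outside `W` -/
def Gen {n M p : ℕ} (G : Fin M → MvPolynomial (Fin n) K) (w : Fin p → MvPolynomial (Fin n) K)
    (m d : ℕ) : Prop :=
  ∃ (t a : ℕ) (P : Fin t → MvPolynomial (Fin n) K), (∀ j, (P j).IsHomogeneous d ∧
    ∀ k, X k ^ a * P j ∈ Ideal.span (Set.range w) ^ m ⊔ Ideal.span (Set.range G)) ∧
    ∀ (E : Type) [Field E] [Algebra K E] (x : Fin n → E), x ≠ 0 → (∀ k, aeval x (G k) = 0) →
      (∀ j, aeval x (P j) = 0) → ∀ j, aeval x (w j) = 0

/-- the inequality with rational constants -/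
theorem main_rat {n M q N r μ : ℕ}
    (G : Fin M → MvPolynomial (Fin n) K) (g : Fin M → ℕ) (hG : ∀ k, (G k).IsHomogeneous (g k))
    (hp : (Ideal.span (Set.range G)).IsPrime)
    (hμ : (μ : Cardinal) < Algebra.trdeg K (MvPolynomial (Fin n) K ⧸ Ideal.span (Set.range G)))
    (p : Fin q → ℕ) (e : ∀ i, Fin (p i) → ℕ) (w : ∀ i, Fin (p i) → MvPolynomial (Fin n) K)
    (hw : ∀ i j, (w i j).IsHomogeneous (e i j))
    (hpos : Pos (Ideal.span (Set.range G)) (fun i => Ideal.span (Set.range (w i))) N)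
    (m d : Fin q → ℕ) (hd : ∀ i, 1 ≤ d i) (hgen : ∀ i, Gen G (w i) (m i) (d i)) {ε : ℝ}
    (hε : 0 < ε) :
    ∃ (Z : MvPolynomial (Fin n) K) (t : ℕ), Z.IsHomogeneous t ∧ Z ∉ Ideal.span (Set.range G) ∧
      ∀ S : Finset (Pl K), ∃ C : ℝ, 0 ≤ C ∧ ∀ (L : Type) [Field L] [NumberField L] [Algebra K L],
      finrank K L ≤ r →
      ∀ x : Fin n → L, x ≠ 0 → (∀ k, aeval x (G k) = 0) → (∀ i, ∃ j, aeval x (w i j) ≠ 0) →
      aeval x Z ≠ 0 →
      ∀ T : Finset (Pl L), (∀ v ∈ T, ∃ u ∈ S, Ov u v) →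
      ∑ v ∈ T, ∑ i, (m i : ℝ) / d i * (wt v * slam (av v) (e i) (w i) x) ≤
        (2 * (N * finrank K L) - μ + 1 + ε) * logHeight x + C := by
  classical
  by_cases hcase : ∃ i, ∀ j, w i j ∈ Ideal.span (Set.range G)
  · -- one of the subschemes is `X`
    obtain ⟨i, hi⟩ := hcase
    refine ⟨1, 0, isHomogeneous_one _ _, fun h => hp.ne_top ((Ideal.eq_top_iff_one _).2 h),
      fun S => ⟨0, le_rfl, fun L _ _ _ _ x _ hGx hwx _ T _ => ?_⟩⟩
    exfalso
    obtain ⟨j, hj⟩ := hwx i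
    obtain ⟨A, hA⟩ := (Ideal.mem_span_range_iff_exists_fun).1 (hi j)
    apply hj
    rw [← hA, map_sum]
    exact Finset.sum_eq_zero fun k _ => by rw [map_mul, hGx k, mul_zero]
  push Not at hcase
  choose t a P hP hPb using hgen
  -- general members
  have hk : ∀ i, ¬ Ideal.span (Set.range (P i)) ≤ Ideal.span (Set.range G) := by
    intro i hle
    obtain ⟨E, _, _, x, hx, hx0⟩ := generic (Ideal.span (Set.range G))
    have hxne : x ≠ 0 := by
      intro h0
      rw [hx0 h0] at hμ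
      exact absurd hμ (by simp)
    obtain ⟨j, hj⟩ := hcase i
    apply hj
    exact (hx _).1 (hPb i E x hxne (fun k => (hx _).2 (Ideal.subset_span ⟨k, rfl⟩))
      (fun j => (hx _).2 (hle (Ideal.subset_span ⟨j, rfl⟩))) j)
  have hpos' := pos_of p w hpos t P hPb
  obtain ⟨c, hc, hcG⟩ := choice hp t P hpos' hk
  set H : Fin q → MvPolynomial (Fin n) K := fun i => ∑ j, c i j • P i j with hH
  have hHd : ∀ i, (H i).IsHomogeneous (d i) := by
    intro i
    have h1 : H i ∈ homogeneousSubmodule (Fin n) K (d i) :=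
      Submodule.sum_mem _ fun j _ => Submodule.smul_mem _ _ ((hP i j).1)
    exact h1
  have hHI : ∀ i k, X k ^ a i * H i ∈
      Ideal.span (Set.range (w i)) ^ (m i) ⊔ Ideal.span (Set.range G) := by
    intro i k
    rw [hH]
    simp only
    rw [Finset.mul_sum]
    refine Ideal.sum_mem _ fun j _ => ?_
    rw [← algebraMap_smul (MvPolynomial (Fin n) K) (c i j) (P i j), smul_eq_mul, mul_left_comm]
    exact Ideal.mul_mem_left _ _ ((hP i j).2 k)
  have hμN : μ ≤ N := by
    have h1 := hpos ∅ (Ideal.span (Set.range G)) (by simp) hp le_rfl (by simp)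
    rw [Finset.card_empty, Nat.cast_zero, add_zero] at h1
    have h2 := hμ.trans_le h1
    have h3 : μ < N + 1 := by exact_mod_cast h2
    omega
  obtain ⟨Z, t0, hZt, hZG, hZ⟩ := ngen (r := r) (N := N) (μ := μ) G g hG hp hμ hμN H d hd hHd
    (fun J E _ _ x hGx hHx => hc.no_point hG hHd J E x hGx hHx) hε
  refine ⟨Z * ∏ i, H i, t0 + ∑ i, d i, hZt.mul (IsHomogeneous.prod _ _ _ fun i _ => hHd i), ?_,
    fun S => ?_⟩
  · intro h
    rcases hp.mem_or_mem h with h | h
    · exact hZG h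
    · obtain ⟨i, -, hi⟩ := hp.prod_mem_iff.1 h
      exact hcG i hi
  obtain ⟨C, hC0, hC⟩ := hZ S
  choose C1 hC10 hC1 using fun i => lam_ge G (e i) (w i) (hw i) g hG (hHd i) (hHI i)
  have hC1s : 0 ≤ ∑ i, C1 i := Finset.sum_nonneg fun i _ => hC10 i
  refine ⟨C + S.card * r * ((∑ i, C1 i) * (finrank ℚ K * r)), by positivity,
    fun L _ _ _ hL x hx hGx hwx hZx T hT => ?_⟩
  rw [map_mul, map_prod] at hZx
  have hHx : ∀ i, aeval x (H i) ≠ 0 := fun i h =>
    hZx (by rw [Finset.prod_eq_zero (Finset.mem_univ i) h, mul_zero])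
  have h1 := hC L hL x hx hGx hHx (left_ne_zero_of_mul hZx) T hT
  have hd0 : ∀ i, (1 : ℝ) ≤ d i := fun i => by exact_mod_cast hd i
  have hfq : (finrank ℚ L : ℝ) ≤ finrank ℚ K * r := by
    have h4 : finrank ℚ K * finrank K L = finrank ℚ L := finrank_mul_finrank ℚ K L
    rw [← h4]
    push_cast
    exact mul_le_mul_of_nonneg_left (by exact_mod_cast hL) (Nat.cast_nonneg _)
  have h2 : ∀ v ∈ T, ∑ i, (m i : ℝ) / d i * (wt v * slam (av v) (e i) (w i) x) ≤
      wt v * ∑ i, lam (av v) (d i) (bc L (H i)) x / d i + (∑ i, C1 i) * (finrank ℚ K * r) := by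
    intro v _
    rw [Finset.mul_sum, Finset.sum_mul, ← Finset.sum_add_distrib]
    refine Finset.sum_le_sum fun i _ => ?_
    have h3 := hC1 i L v x hx hGx (hHx i) (hwx i)
    have h4 := hd0 i
    have h5 : C1 i * finrank ℚ L ≤ C1 i * (finrank ℚ K * r) :=
      mul_le_mul_of_nonneg_left hfq (hC10 i)
    have h6 : 0 ≤ C1 i * (finrank ℚ K * r) := mul_nonneg (hC10 i) (by positivity)
    have h7 : (m i : ℝ) / d i * (wt v * slam (av v) (e i) (w i) x) =
        m i * (wt v * slam (av v) (e i) (w i) x) / d i := by ring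
    have h8 : wt v * (lam (av v) (d i) (bc L (H i)) x / d i) + C1 i * (finrank ℚ K * r) =
        (wt v * lam (av v) (d i) (bc L (H i)) x + C1 i * (finrank ℚ K * r) * d i) / d i := by
      field_simp
    rw [h7, h8]
    refine div_le_div_of_nonneg_right ?_ (by linarith)
    have h9 : C1 i * (finrank ℚ K * r) ≤ C1 i * (finrank ℚ K * r) * d i :=
      le_mul_of_one_le_right h6 h4
    linarith
  have h3 := Finset.sum_le_sum h2
  rw [Finset.sum_add_distrib, Finset.sum_const, nsmul_eq_mul] at h3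
  -- the number of places
  set U : Finset (Pl L) := S.biUnion fun v => ab L v with hU
  have hTU : T ⊆ U := by
    intro w hw
    obtain ⟨v, hv, hvw⟩ := hT w hw
    exact Finset.mem_biUnion.2 ⟨v, hv, mem_ab.2 hvw⟩
  have hcardU : (T.card : ℝ) ≤ S.card * r := by
    have h4 : U.card ≤ ∑ v ∈ S, (ab L v).card := Finset.card_biUnion_le
    have h5 : ∑ v ∈ S, (ab L v).card ≤ ∑ _v ∈ S, r :=
      Finset.sum_le_sum fun v _ => (card_ab_le L v).trans hL
    rw [Finset.sum_const, smul_eq_mul] at h5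
    exact_mod_cast (Finset.card_le_card hTU).trans (h4.trans h5)
  have h4 : (T.card : ℝ) * ((∑ i, C1 i) * (finrank ℚ K * r)) ≤
      S.card * r * ((∑ i, C1 i) * (finrank ℚ K * r)) :=
    mul_le_mul_of_nonneg_right hcardU (by positivity)
  linarith

/-- **The sharp Schmidt-Nochka theorem for closed subschemes and the points of bounded degree.** -/
theorem main {n M q N r μ : ℕ}
    (G : Fin M → MvPolynomial (Fin n) K) (g : Fin M → ℕ) (hG : ∀ k, (G k).IsHomogeneous (g k))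
    (hp : (Ideal.span (Set.range G)).IsPrime)
    (hμ : (μ : Cardinal) < Algebra.trdeg K (MvPolynomial (Fin n) K ⧸ Ideal.span (Set.range G)))
    (p : Fin q → ℕ) (e : ∀ i, Fin (p i) → ℕ) (w : ∀ i, Fin (p i) → MvPolynomial (Fin n) K)
    (hw : ∀ i j, (w i j).IsHomogeneous (e i j))
    (hpos : Pos (Ideal.span (Set.range G)) (fun i => Ideal.span (Set.range (w i))) N)
    (γ : Fin q → ℝ) (hγ : ∀ i, ∀ η : ℝ, 0 < η → ∃ m d : ℕ, 1 ≤ d ∧ γ i - η ≤ (m : ℝ) / d ∧
      Gen G (w i) m d) {ε : ℝ} (hε : 0 < ε) :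
    ∃ (Z : MvPolynomial (Fin n) K) (t : ℕ), Z.IsHomogeneous t ∧ Z ∉ Ideal.span (Set.range G) ∧
      ∀ S : Finset (Pl K), ∃ C : ℝ, 0 ≤ C ∧ ∀ (L : Type) [Field L] [NumberField L] [Algebra K L],
      finrank K L ≤ r →
      ∀ x : Fin n → L, x ≠ 0 → (∀ k, aeval x (G k) = 0) → (∀ i, ∃ j, aeval x (w i j) ≠ 0) →
      aeval x Z ≠ 0 →
      ∀ T : Finset (Pl L), (∀ v ∈ T, ∃ u ∈ S, Ov u v) →
      ∑ v ∈ T, wt v * ∑ i, γ i * slam (av v) (e i) (w i) x ≤
        (2 * (N * finrank K L) - μ + 1 + ε) * logHeight x + C := by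
  classical
  set E : Fin q → ℝ := fun i => ∑ j, (e i j : ℝ) with hE
  have hE0 : ∀ i, 0 ≤ E i := fun i => Finset.sum_nonneg fun j _ => Nat.cast_nonneg _
  have hEs : 0 ≤ ∑ i, E i := Finset.sum_nonneg fun i _ => hE0 i
  set η : ℝ := ε / 2 / (1 + ∑ i, E i) with hη
  have hη0 : 0 < η := by positivity
  choose m d hd hmd hgen using fun i => hγ i η hη0
  obtain ⟨Z, t, hZt, hZG, hZ⟩ := main_rat (r := r) G g hG hp hμ p e w hw hpos m d hd hgen
    (half_pos hε)
  refine ⟨Z, t, hZt, hZG, fun S => ?_⟩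
  obtain ⟨C, hC0, hC⟩ := hZ S
  choose C1 hC10 hC1 using fun i => slam_ge (e i) (w i) (hw i)
  choose C2 hC20 hC2 using fun i j => liou_u (w i j) (e i j) (hw i j)
  have hC2s : ∀ i, 0 ≤ ∑ j, C2 i j := fun i => Finset.sum_nonneg fun j _ => hC20 i j
  set D : ℝ := finrank ℚ K * r with hD
  have hD0 : 0 ≤ D := by positivity
  -- the constants
  set C3 : Fin q → ℝ := fun i => S.card * r * (C1 i * D) with hC3
  have hC30 : ∀ i, 0 ≤ C3 i := fun i => mul_nonneg (by positivity) (mul_nonneg (hC10 i) hD0)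
  set C4 : Fin q → ℝ := fun i => η * ((∑ j, C2 i j) * D + C3 i) +
    |γ i - (m i : ℝ) / d i| * C3 i with hC4
  have hC40 : ∀ i, 0 ≤ C4 i := fun i => add_nonneg (mul_nonneg hη0.le
    (add_nonneg (mul_nonneg (hC2s i) hD0) (hC30 i))) (mul_nonneg (abs_nonneg _) (hC30 i))
  refine ⟨C + ∑ i, C4 i, add_nonneg hC0 (Finset.sum_nonneg fun i _ => hC40 i),
    fun L _ _ _ hL x hx hGx hwx hZx T hT => ?_⟩
  have h1 := hC L hL x hx hGx hwx hZx T hT
  have hfq : (finrank ℚ L : ℝ) ≤ D := by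
    have h4 : finrank ℚ K * finrank K L = finrank ℚ L := finrank_mul_finrank ℚ K L
    rw [← h4, hD]
    push_cast
    exact mul_le_mul_of_nonneg_left (by exact_mod_cast hL) (Nat.cast_nonneg _)
  have hcardU : (T.card : ℝ) ≤ S.card * r := by
    set U : Finset (Pl L) := S.biUnion fun v => ab L v with hU
    have hTU : T ⊆ U := by
      intro w hw
      obtain ⟨v, hv, hvw⟩ := hT w hw
      exact Finset.mem_biUnion.2 ⟨v, hv, mem_ab.2 hvw⟩
    have h4 : U.card ≤ ∑ v ∈ S, (ab L v).card := Finset.card_biUnion_le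
    have h5 : ∑ v ∈ S, (ab L v).card ≤ ∑ _v ∈ S, r :=
      Finset.sum_le_sum fun v _ => (card_ab_le L v).trans hL
    rw [Finset.sum_const, smul_eq_mul] at h5
    exact_mod_cast (Finset.card_le_card hTU).trans (h4.trans h5)
  set σ : Fin q → ℝ := fun i => ∑ v ∈ T, wt v * slam (av v) (e i) (w i) x with hσ
  have hh := logHeight_nonneg x
  -- the bounds for the local heights
  have hlow : ∀ i, -C3 i ≤ σ i := by
    intro i
    have h2 : ∀ v ∈ T, -(C1 i * D) ≤ wt v * slam (av v) (e i) (w i) x := by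
      intro v _
      have h3 := hC1 i L v x hx (hwx i)
      have h4 := mul_le_mul_of_nonneg_left hfq (hC10 i)
      linarith
    have h3 := Finset.sum_le_sum h2
    rw [Finset.sum_const, nsmul_eq_mul] at h3
    have h4 : (T.card : ℝ) * (C1 i * D) ≤ S.card * r * (C1 i * D) :=
      mul_le_mul_of_nonneg_right hcardU (mul_nonneg (hC10 i) hD0)
    show -C3 i ≤ ∑ v ∈ T, wt v * slam (av v) (e i) (w i) x
    rw [hC3]
    linarith
  have hup : ∀ i, σ i ≤ E i * logHeight x + (∑ j, C2 i j) * D := by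
    intro i
    obtain ⟨j, hj⟩ := hwx i
    have h2 : σ i ≤ ∑ v ∈ T, wt v * max 0 (lam (av v) (e i j) (bc L (w i j)) x) :=
      Finset.sum_le_sum fun v _ => mul_le_mul_of_nonneg_left
        ((slam_le v (e i) (w i) hx j hj).trans (le_max_right _ _)) (wt_nonneg v)
    have h3 := hC2 i j L T x hx hj
    have h4 : (e i j : ℝ) ≤ E i :=
      Finset.single_le_sum (f := fun j => (e i j : ℝ)) (fun j _ => Nat.cast_nonneg _)
        (Finset.mem_univ j)
    have h5 : C2 i j ≤ ∑ j, C2 i j :=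
      Finset.single_le_sum (f := fun j => C2 i j) (fun j _ => hC20 i j) (Finset.mem_univ j)
    have h6 := mul_le_mul_of_nonneg_right h4 hh
    have h7 : C2 i j * finrank ℚ L ≤ (∑ j, C2 i j) * D :=
      mul_le_mul h5 hfq (Nat.cast_nonneg _) (hC2s i)
    linarith
  have hterm : ∀ i, γ i * σ i ≤ (m i : ℝ) / d i * σ i + η * E i * logHeight x + C4 i := by
    intro i
    have h2 : γ i - (m i : ℝ) / d i ≤ η := by linarith [hmd i]
    have h3 : 0 ≤ σ i + C3 i := by linarith [hlow i]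
    have h4 : (γ i - (m i : ℝ) / d i) * (σ i + C3 i) ≤ η * (σ i + C3 i) :=
      mul_le_mul_of_nonneg_right h2 h3
    have h5 : η * (σ i + C3 i) ≤ η * (E i * logHeight x + (∑ j, C2 i j) * D + C3 i) :=
      mul_le_mul_of_nonneg_left (by linarith [hup i]) hη0.le
    have h6 : -(γ i - (m i : ℝ) / d i) * C3 i ≤ |γ i - (m i : ℝ) / d i| * C3 i :=
      mul_le_mul_of_nonneg_right (neg_le_abs _) (hC30 i)
    have h7 : C4 i = η * ((∑ j, C2 i j) * D + C3 i) + |γ i - (m i : ℝ) / d i| * C3 i := rfl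
    rw [h7]
    nlinarith [h4, h5, h6]
  have hsum : ∑ v ∈ T, wt v * ∑ i, γ i * slam (av v) (e i) (w i) x = ∑ i, γ i * σ i := by
    simp_rw [hσ, Finset.mul_sum]
    rw [Finset.sum_comm]
    refine Finset.sum_congr rfl fun i _ => Finset.sum_congr rfl fun v _ => ?_
    ring
  have hsum2 : ∑ v ∈ T, ∑ i, (m i : ℝ) / d i * (wt v * slam (av v) (e i) (w i) x) =
      ∑ i, (m i : ℝ) / d i * σ i := by
    simp_rw [hσ, Finset.mul_sum]
    rw [Finset.sum_comm]
  rw [hsum2] at h1
  rw [hsum]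
  have h8 := Finset.sum_le_sum fun i (_ : i ∈ Finset.univ) => hterm i
  rw [Finset.sum_add_distrib, Finset.sum_add_distrib] at h8
  have h9 : ∑ i, η * E i * logHeight x ≤ ε / 2 * logHeight x := by
    rw [← Finset.sum_mul, ← Finset.mul_sum]
    refine mul_le_mul_of_nonneg_right ?_ hh
    rw [hη, div_mul_eq_mul_div, div_le_iff₀ (by linarith)]
    have : 0 ≤ ε / 2 := by linarith
    nlinarith
  linarith

end Pool.Agent.H426.Sub
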