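import Pool.Agent.H426.Two.Gen
import Pool.Agent.H426.Sub.Cov
import Pool.Agent.H426.Sub.Main

/-!
Closed subschemes in subgeneral position: all points of bounded degree.
-/

set_option autoImplicit false

namespace Pool.Agent.H426.Sub

open MvPolynomial Finset Module NumberField IsDedekindDomain Height
open Pool.Agent.W180.OP Pool.Agent.W180.TP Pool.Agent.NH28
open Pool.Agent.H426.Two Pool.Agent.H426.Noc

variable {K : Type} [Field K] [NumberField K]

/-- the inequality for the points outside one family of general members -/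
theorem all_one {n M q N r : ℕ}
    (G : Fin M → MvPolynomial (Fin n) K) (g : Fin M → ℕ) (hG : ∀ k, (G k).IsHomogeneous (g k))
    (p : Fin q → ℕ) (e : ∀ i, Fin (p i) → ℕ) (w : ∀ i, Fin (p i) → MvPolynomial (Fin n) K)
    (hw : ∀ i j, (w i j).IsHomogeneous (e i j))
    (m d : Fin q → ℕ) (hd : ∀ i, 1 ≤ d i) (H : Fin q → MvPolynomial (Fin n) K)
    (hHd : ∀ i, (H i).IsHomogeneous (d i)) (a : Fin q → ℕ)
    (hHI : ∀ i k, X k ^ a i * H i ∈
      Ideal.span (Set.range (w i)) ^ (m i) ⊔ Ideal.span (Set.range G))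
    (hc : Pos (Ideal.span (Set.range G)) (fun i => Ideal.span {H i}) N) {ε : ℝ}
    (hε : 0 < ε) (S : Finset (Pl K)) :
    ∃ C : ℝ, 0 ≤ C ∧ ∀ (L : Type) [Field L] [NumberField L] [Algebra K L],
      finrank K L ≤ r →
      ∀ x : Fin n → L, x ≠ 0 → (∀ k, aeval x (G k) = 0) → (∀ i, ∃ j, aeval x (w i j) ≠ 0) →
      (∀ i, aeval x (H i) ≠ 0) →
      ∀ T : Finset (Pl L), (∀ v ∈ T, ∃ u ∈ S, Ov u v) →
      ∑ v ∈ T, ∑ i, (m i : ℝ) / d i * (wt v * slam (av v) (e i) (w i) x) ≤
        (2 * (N * finrank K L) + ε) * logHeight x + C := by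
  classical
  obtain ⟨C, hC0, hC⟩ := gen (r := r) (N := N) G g hG H d hd hHd
    (fun J E _ _ x hGx hHx => hc.no_point hG hHd J E x hGx hHx) hε S
  choose C1 hC10 hC1 using fun i => lam_ge G (e i) (w i) (hw i) g hG (hHd i) (hHI i)
  have hC1s : 0 ≤ ∑ i, C1 i := Finset.sum_nonneg fun i _ => hC10 i
  refine ⟨C + S.card * r * ((∑ i, C1 i) * (finrank ℚ K * r)), by positivity,
    fun L _ _ _ hL x hx hGx hwx hHx T hT => ?_⟩
  have h1 := hC L hL x hx hGx hHx T hT
  have hd0 : ∀ i, (1 : ℝ) ≤ d i := fun i => by exact_mod_cast hd i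
  have hfq : (finrank ℚ L : ℝ) ≤ finrank ℚ K * r := by
    have h4 : finrank ℚ K * finrank K L = finrank ℚ L := finrank_mul_finrank ℚ K L
    rw [← h4]
    push_cast
    exact mul_le_mul_of_nonneg_left (by exact_mod_cast hL) (Nat.cast_nonneg _)
  have h2 : ∀ v ∈ T, ∑ i, (m i : ℝ) / d i * (wt v * slam (av v) (e i) (w i) x) ≤
      wt v * ∑ i, lam (av v) (d i) (bc L (H i)) x / d i + (∑ i, C1 i) * (finrank ℚ K * r) := by
    intro v _
    rw [Finset.mul_sum, Finset.sum_mul, ← Finset.sum_add_distrib]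
    refine Finset.sum_le_sum fun i _ => ?_
    have h3 := hC1 i L v x hx hGx (hHx i) (hwx i)
    have h4 := hd0 i
    have h5 : C1 i * finrank ℚ L ≤ C1 i * (finrank ℚ K * r) :=
      mul_le_mul_of_nonneg_left hfq (hC10 i)
    have h6 : 0 ≤ C1 i * (finrank ℚ K * r) := mul_nonneg (hC10 i) (by positivity)
    have h7 : (m i : ℝ) / d i * (wt v * slam (av v) (e i) (w i) x) =
        m i * (wt v * slam (av v) (e i) (w i) x) / d i := by ring
    have h8 : wt v * (lam (av v) (d i) (bc L (H i)) x / d i) + C1 i * (finrank ℚ K * r) =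
        (wt v * lam (av v) (d i) (bc L (H i)) x + C1 i * (finrank ℚ K * r) * d i) / d i := by
      field_simp
    rw [h7, h8]
    refine div_le_div_of_nonneg_right ?_ (by linarith)
    have h9 : C1 i * (finrank ℚ K * r) ≤ C1 i * (finrank ℚ K * r) * d i :=
      le_mul_of_one_le_right h6 h4
    linarith
  have h3 := Finset.sum_le_sum h2
  rw [Finset.sum_add_distrib, Finset.sum_const, nsmul_eq_mul] at h3
  -- the number of places
  set U : Finset (Pl L) := S.biUnion fun v => ab L v with hU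
  have hTU : T ⊆ U := by
    intro w hw
    obtain ⟨v, hv, hvw⟩ := hT w hw
    exact Finset.mem_biUnion.2 ⟨v, hv, mem_ab.2 hvw⟩
  have hcardU : (T.card : ℝ) ≤ S.card * r := by
    have h4 : U.card ≤ ∑ v ∈ S, (ab L v).card := Finset.card_biUnion_le
    have h5 : ∑ v ∈ S, (ab L v).card ≤ ∑ _v ∈ S, r :=
      Finset.sum_le_sum fun v _ => (card_ab_le L v).trans hL
    rw [Finset.sum_const, smul_eq_mul] at h5
    exact_mod_cast (Finset.card_le_card hTU).trans (h4.trans h5)
  have h4 : (T.card : ℝ) * ((∑ i, C1 i) * (finrank ℚ K * r)) ≤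
      S.card * r * ((∑ i, C1 i) * (finrank ℚ K * r)) :=
    mul_le_mul_of_nonneg_right hcardU (by positivity)
  linarith

/-- the inequality with rational constants -/
theorem all_rat {n M q N r : ℕ}
    (G : Fin M → MvPolynomial (Fin n) K) (g : Fin M → ℕ) (hG : ∀ k, (G k).IsHomogeneous (g k))
    (p : Fin q → ℕ) (e : ∀ i, Fin (p i) → ℕ) (w : ∀ i, Fin (p i) → MvPolynomial (Fin n) K)
    (hw : ∀ i j, (w i j).IsHomogeneous (e i j))
    (hpos : Pos (Ideal.span (Set.range G)) (fun i => Ideal.span (Set.range (w i))) N)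
    (m d : Fin q → ℕ) (hd : ∀ i, 1 ≤ d i) (hgen : ∀ i, Gen G (w i) (m i) (d i)) {ε : ℝ}
    (hε : 0 < ε) (S : Finset (Pl K)) :
    ∃ C : ℝ, 0 ≤ C ∧ ∀ (L : Type) [Field L] [NumberField L] [Algebra K L],
      finrank K L ≤ r →
      ∀ x : Fin n → L, x ≠ 0 → (∀ k, aeval x (G k) = 0) → (∀ i, ∃ j, aeval x (w i j) ≠ 0) →
      ∀ T : Finset (Pl L), (∀ v ∈ T, ∃ u ∈ S, Ov u v) →
      ∑ v ∈ T, ∑ i, (m i : ℝ) / d i * (wt v * slam (av v) (e i) (w i) x) ≤
        (2 * (N * finrank K L) + ε) * logHeight x + C := by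
  classical
  choose t a P hP hPb using hgen
  have hpos' := pos_of p w hpos t P hPb
  obtain ⟨A, hA, hAx⟩ := cover t P hpos' (Ideal.span (Set.range G))
  have hHd : ∀ (c : ∀ i, Fin (t i) → K) (i : Fin q),
      (∑ j, c i j • P i j).IsHomogeneous (d i) := by
    intro c i
    have h1 : (∑ j, c i j • P i j) ∈ homogeneousSubmodule (Fin n) K (d i) :=
      Submodule.sum_mem _ fun j _ => Submodule.smul_mem _ _ ((hP i j).1)
    exact h1
  have hHI : ∀ (c : ∀ i, Fin (t i) → K) (i : Fin q) (k : Fin n),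
      X k ^ a i * (∑ j, c i j • P i j) ∈
      Ideal.span (Set.range (w i)) ^ (m i) ⊔ Ideal.span (Set.range G) := by
    intro c i k
    rw [Finset.mul_sum]
    refine Ideal.sum_mem _ fun j _ => ?_
    rw [← algebraMap_smul (MvPolynomial (Fin n) K) (c i j) (P i j), smul_eq_mul, mul_left_comm]
    exact Ideal.mul_mem_left _ _ ((hP i j).2 k)
  choose! C hC0 hC using fun c (hc : c ∈ A) => all_one (r := r) (N := N) G g hG p e w hw m d hd
    (fun i => ∑ j, c i j • P i j) (hHd c) a (hHI c) (hA c hc) hε S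
  refine ⟨∑ c ∈ A, C c, Finset.sum_nonneg fun c hc => hC0 c hc,
    fun L _ _ _ hL x hx hGx hwx T hT => ?_⟩
  obtain ⟨c, hc, hcx⟩ := hAx L x (by
    intro F hF
    obtain ⟨B, rfl⟩ := (Ideal.mem_span_range_iff_exists_fun).1 hF
    rw [map_sum]
    exact Finset.sum_eq_zero fun k _ => by rw [map_mul, hGx k, mul_zero]) (by
    intro i
    by_contra hcon
    push Not at hcon
    obtain ⟨j, hj⟩ := hwx i
    exact hj (hPb i L x hx hGx hcon j))
  have h1 := hC c hc L hL x hx hGx hwx hcx T hT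
  have h2 : C c ≤ ∑ c ∈ A, C c := Finset.single_le_sum (f := C) (fun c hc => hC0 c hc) hc
  linarith

/-- **All points of bounded degree, closed subschemes in subgeneral position.** -/
theorem all {n M q N r : ℕ}
    (G : Fin M → MvPolynomial (Fin n) K) (g : Fin M → ℕ) (hG : ∀ k, (G k).IsHomogeneous (g k))
    (p : Fin q → ℕ) (e : ∀ i, Fin (p i) → ℕ) (w : ∀ i, Fin (p i) → MvPolynomial (Fin n) K)
    (hw : ∀ i j, (w i j).IsHomogeneous (e i j))
    (hpos : Pos (Ideal.span (Set.range G)) (fun i => Ideal.span (Set.range (w i))) N)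
    (γ : Fin q → ℝ) (hγ : ∀ i, ∀ η : ℝ, 0 < η → ∃ m d : ℕ, 1 ≤ d ∧ γ i - η ≤ (m : ℝ) / d ∧
      Gen G (w i) m d) {ε : ℝ} (hε : 0 < ε) (S : Finset (Pl K)) :
    ∃ C : ℝ, 0 ≤ C ∧ ∀ (L : Type) [Field L] [NumberField L] [Algebra K L],
      finrank K L ≤ r →
      ∀ x : Fin n → L, x ≠ 0 → (∀ k, aeval x (G k) = 0) → (∀ i, ∃ j, aeval x (w i j) ≠ 0) →
      ∀ T : Finset (Pl L), (∀ v ∈ T, ∃ u ∈ S, Ov u v) →
      ∑ v ∈ T, wt v * ∑ i, γ i * slam (av v) (e i) (w i) x ≤
        (2 * (N * finrank K L) + ε) * logHeight x + C := by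
  classical
  set E : Fin q → ℝ := fun i => ∑ j, (e i j : ℝ) with hE
  have hE0 : ∀ i, 0 ≤ E i := fun i => Finset.sum_nonneg fun j _ => Nat.cast_nonneg _
  have hEs : 0 ≤ ∑ i, E i := Finset.sum_nonneg fun i _ => hE0 i
  set η : ℝ := ε / 2 / (1 + ∑ i, E i) with hη
  have hη0 : 0 < η := by positivity
  choose m d hd hmd hgen using fun i => hγ i η hη0
  obtain ⟨C, hC0, hC⟩ := all_rat (r := r) G g hG p e w hw hpos m d hd hgen
    (half_pos hε) S
  choose C1 hC10 hC1 using fun i => slam_ge (e i) (w i) (hw i)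
  choose C2 hC20 hC2 using fun i j => liou_u (w i j) (e i j) (hw i j)
  have hC2s : ∀ i, 0 ≤ ∑ j, C2 i j := fun i => Finset.sum_nonneg fun j _ => hC20 i j
  set D : ℝ := finrank ℚ K * r with hD
  have hD0 : 0 ≤ D := by positivity
  -- the constants
  set C3 : Fin q → ℝ := fun i => S.card * r * (C1 i * D) with hC3
  have hC30 : ∀ i, 0 ≤ C3 i := fun i => mul_nonneg (by positivity) (mul_nonneg (hC10 i) hD0)
  set C4 : Fin q → ℝ := fun i => η * ((∑ j, C2 i j) * D + C3 i) +
    |γ i - (m i : ℝ) / d i| * C3 i with hC4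
  have hC40 : ∀ i, 0 ≤ C4 i := fun i => add_nonneg (mul_nonneg hη0.le
    (add_nonneg (mul_nonneg (hC2s i) hD0) (hC30 i))) (mul_nonneg (abs_nonneg _) (hC30 i))
  refine ⟨C + ∑ i, C4 i, add_nonneg hC0 (Finset.sum_nonneg fun i _ => hC40 i),
    fun L _ _ _ hL x hx hGx hwx T hT => ?_⟩
  have h1 := hC L hL x hx hGx hwx T hT
  have hfq : (finrank ℚ L : ℝ) ≤ D := by
    have h4 : finrank ℚ K * finrank K L = finrank ℚ L := finrank_mul_finrank ℚ K L
    rw [← h4, hD]
    push_cast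
    exact mul_le_mul_of_nonneg_left (by exact_mod_cast hL) (Nat.cast_nonneg _)
  have hcardU : (T.card : ℝ) ≤ S.card * r := by
    set U : Finset (Pl L) := S.biUnion fun v => ab L v with hU
    have hTU : T ⊆ U := by
      intro w hw
      obtain ⟨v, hv, hvw⟩ := hT w hw
      exact Finset.mem_biUnion.2 ⟨v, hv, mem_ab.2 hvw⟩
    have h4 : U.card ≤ ∑ v ∈ S, (ab L v).card := Finset.card_biUnion_le
    have h5 : ∑ v ∈ S, (ab L v).card ≤ ∑ _v ∈ S, r :=
      Finset.sum_le_sum fun v _ => (card_ab_le L v).trans hL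
    rw [Finset.sum_const, smul_eq_mul] at h5
    exact_mod_cast (Finset.card_le_card hTU).trans (h4.trans h5)
  set σ : Fin q → ℝ := fun i => ∑ v ∈ T, wt v * slam (av v) (e i) (w i) x with hσ
  have hh := logHeight_nonneg x
  -- the bounds for the local heights
  have hlow : ∀ i, -C3 i ≤ σ i := by
    intro i
    have h2 : ∀ v ∈ T, -(C1 i * D) ≤ wt v * slam (av v) (e i) (w i) x := by
      intro v _
      have h3 := hC1 i L v x hx (hwx i)
      have h4 := mul_le_mul_of_nonneg_left hfq (hC10 i)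
      linarith
    have h3 := Finset.sum_le_sum h2
    rw [Finset.sum_const, nsmul_eq_mul] at h3
    have h4 : (T.card : ℝ) * (C1 i * D) ≤ S.card * r * (C1 i * D) :=
      mul_le_mul_of_nonneg_right hcardU (mul_nonneg (hC10 i) hD0)
    show -C3 i ≤ ∑ v ∈ T, wt v * slam (av v) (e i) (w i) x
    rw [hC3]
    linarith
  have hup : ∀ i, σ i ≤ E i * logHeight x + (∑ j, C2 i j) * D := by
    intro i
    obtain ⟨j, hj⟩ := hwx i
    have h2 : σ i ≤ ∑ v ∈ T, wt v * max 0 (lam (av v) (e i j) (bc L (w i j)) x) :=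
      Finset.sum_le_sum fun v _ => mul_le_mul_of_nonneg_left
        ((slam_le v (e i) (w i) hx j hj).trans (le_max_right _ _)) (wt_nonneg v)
    have h3 := hC2 i j L T x hx hj
    have h4 : (e i j : ℝ) ≤ E i :=
      Finset.single_le_sum (f := fun j => (e i j : ℝ)) (fun j _ => Nat.cast_nonneg _)
        (Finset.mem_univ j)
    have h5 : C2 i j ≤ ∑ j, C2 i j :=
      Finset.single_le_sum (f := fun j => C2 i j) (fun j _ => hC20 i j) (Finset.mem_univ j)
    have h6 := mul_le_mul_of_nonneg_right h4 hh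
    have h7 : C2 i j * finrank ℚ L ≤ (∑ j, C2 i j) * D :=
      mul_le_mul h5 hfq (Nat.cast_nonneg _) (hC2s i)
    linarith
  have hterm : ∀ i, γ i * σ i ≤ (m i : ℝ) / d i * σ i + η * E i * logHeight x + C4 i := by
    intro i
    have h2 : γ i - (m i : ℝ) / d i ≤ η := by linarith [hmd i]
    have h3 : 0 ≤ σ i + C3 i := by linarith [hlow i]
    have h4 : (γ i - (m i : ℝ) / d i) * (σ i + C3 i) ≤ η * (σ i + C3 i) :=
      mul_le_mul_of_nonneg_right h2 h3
    have h5 : η * (σ i + C3 i) ≤ η * (E i * logHeight x + (∑ j, C2 i j) * D + C3 i) :=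
      mul_le_mul_of_nonneg_left (by linarith [hup i]) hη0.le
    have h6 : -(γ i - (m i : ℝ) / d i) * C3 i ≤ |γ i - (m i : ℝ) / d i| * C3 i :=
      mul_le_mul_of_nonneg_right (neg_le_abs _) (hC30 i)
    have h7 : C4 i = η * ((∑ j, C2 i j) * D + C3 i) + |γ i - (m i : ℝ) / d i| * C3 i := rfl
    rw [h7]
    nlinarith [h4, h5, h6]
  have hsum : ∑ v ∈ T, wt v * ∑ i, γ i * slam (av v) (e i) (w i) x = ∑ i, γ i * σ i := by
    simp_rw [hσ, Finset.mul_sum]
    rw [Finset.sum_comm]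
    refine Finset.sum_congr rfl fun i _ => Finset.sum_congr rfl fun v _ => ?_
    ring
  have hsum2 : ∑ v ∈ T, ∑ i, (m i : ℝ) / d i * (wt v * slam (av v) (e i) (w i) x) =
      ∑ i, (m i : ℝ) / d i * σ i := by
    simp_rw [hσ, Finset.mul_sum]
    rw [Finset.sum_comm]
  rw [hsum2] at h1
  rw [hsum]
  have h8 := Finset.sum_le_sum fun i (_ : i ∈ Finset.univ) => hterm i
  rw [Finset.sum_add_distrib, Finset.sum_add_distrib] at h8
  have h9 : ∑ i, η * E i * logHeight x ≤ ε / 2 * logHeight x := by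
    rw [← Finset.sum_mul, ← Finset.mul_sum]
    refine mul_le_mul_of_nonneg_right ?_ hh
    rw [hη, div_mul_eq_mul_div, div_le_iff₀ (by linarith)]
    have : 0 ≤ ε / 2 := by linarith
    nlinarith
  linarith

end Pool.Agent.H426.Sub
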