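import Pool.Agent.H426.Sub.Few

/-!
Disjoint finite subschemes of a curve: a bounded number of them at each place.
-/

set_option autoImplicit false

namespace Pool.Agent.H426.Sub

open MvPolynomial Finset Module NumberField IsDedekindDomain Height
open Pool.Agent.W180.OP Pool.Agent.W180.TP Pool.Agent.NH28
open Pool.Agent.H426.Two Pool.Agent.H426.Noc

/-- disjoint finite subschemes of a curve are in `1`-subgeneral position -/
theorem pos_curve {K : Type} [Field K] {n M q : ℕ} {G : Fin M → MvPolynomial (Fin n) K}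
    (hp : (Ideal.span (Set.range G)).IsPrime)
    (hdim : Algebra.trdeg K (MvPolynomial (Fin n) K ⧸ Ideal.span (Set.range G)) = 2)
    (p : Fin q → ℕ) (w : ∀ i, Fin (p i) → MvPolynomial (Fin n) K)
    (hD : ∀ i, ∃ j, w i j ∉ Ideal.span (Set.range G))
    (hdisj : ∀ i i', i ≠ i' → ∀ (E : Type) [Field E] [Algebra K E] (x : Fin n → E),
      (∀ k, aeval x (G k) = 0) → (∀ j, aeval x (w i j) = 0) → (∀ j, aeval x (w i' j) = 0) →
      x = 0) : Pos (Ideal.span (Set.range G)) (fun i => Ideal.span (Set.range (w i))) 1 := by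
  classical
  intro I P hI hP hGP hwP
  have h2 : Algebra.trdeg K (MvPolynomial (Fin n) K ⧸ P) ≤ 2 := by
    rcases eq_or_lt_of_le hGP with heq | hlt
    · rw [← heq, hdim]
    · have h3 := (Pool.Agent.H426.Ru.trdeg_quot_lt hlt).le
      rwa [hdim] at h3
  have hcase : I.card = 0 ∨ I.card = 1 ∨ I.card = 2 := by omega
  rcases hcase with h0 | h1 | h1
  · rw [h0]
    simpa using h2
  · obtain ⟨i, rfl⟩ := Finset.card_eq_one.1 h1
    obtain ⟨j, hj⟩ := hD i
    have hlt : Ideal.span (Set.range G) < P := by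
      refine lt_of_le_of_ne hGP fun heq => hj ?_
      rw [heq]
      exact hwP i (Finset.mem_singleton_self i) (Ideal.subset_span ⟨j, rfl⟩)
    have h3 := Pool.Agent.H426.Ru.trdeg_quot_lt hlt
    rw [hdim] at h3
    obtain ⟨u, hu⟩ := Cardinal.lt_aleph0.1 (h3.trans (Cardinal.natCast_lt_aleph0 (n := 2)))
    rw [hu] at h3 ⊢
    rw [h1]
    have h4 : u < 2 := by exact_mod_cast h3
    exact_mod_cast (by omega : u + 1 ≤ 1 + 1)
  · obtain ⟨i, i', hne, rfl⟩ := Finset.card_eq_two.1 h1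
    obtain ⟨L, _, _, x, hx, hx0⟩ := generic P
    have h3 : x = 0 := hdisj i i' hne L x
      (fun k => (hx _).2 (hGP (Ideal.subset_span ⟨k, rfl⟩)))
      (fun j => (hx _).2 (hwP i (by simp) (Ideal.subset_span ⟨j, rfl⟩)))
      (fun j => (hx _).2 (hwP i' (by simp) (Ideal.subset_span ⟨j, rfl⟩)))
    rw [hx0 h3, h1]
    norm_num

variable {K : Type} [Field K] [NumberField K]

/-- the constant does not depend on the sets of indices -/
theorem few_unif {n M q N r s : ℕ}
    (G : Fin M → MvPolynomial (Fin n) K) (g : Fin M → ℕ) (hG : ∀ k, (G k).IsHomogeneous (g k))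
    (p : Fin q → ℕ) (e : ∀ i, Fin (p i) → ℕ) (w : ∀ i, Fin (p i) → MvPolynomial (Fin n) K)
    (hw : ∀ i j, (w i j).IsHomogeneous (e i j))
    (hpos : Pos (Ideal.span (Set.range G)) (fun i => Ideal.span (Set.range (w i))) N)
    (γ : Fin q → ℝ) (hγ : ∀ i, ∀ η : ℝ, 0 < η → ∃ m d : ℕ, 1 ≤ d ∧ γ i - η ≤ (m : ℝ) / d ∧
      Gen G (w i) m d) {ε : ℝ} (hε : 0 < ε) (S : Finset (Pl K)) :
    ∃ C : ℝ, 0 ≤ C ∧ ∀ I : Pl K → Finset (Fin q), (∀ v ∈ S, (I v).card ≤ s) →
      ∀ (L : Type) [Field L] [NumberField L] [Algebra K L], finrank K L ≤ r →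
      ∀ x : Fin n → L, x ≠ 0 → (∀ k, aeval x (G k) = 0) → (∀ i, ∃ j, aeval x (w i j) ≠ 0) →
      ∑ i, γ i * sig S I i L (e i) (w i) x ≤
        (N * finrank K L + min (s : ℝ) (N * finrank K L) + ε) * logHeight x + C := by
  classical
  set ext : ({v // v ∈ S} → Finset (Fin q)) → Pl K → Finset (Fin q) := fun J v =>
    if h : v ∈ S then J ⟨v, h⟩ else ∅ with hext
  have key : ∀ J : {v // v ∈ S} → Finset (Fin q), ∃ C : ℝ, 0 ≤ C ∧
      ((∀ v, (J v).card ≤ s) → ∀ (L : Type) [Field L] [NumberField L] [Algebra K L],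
      finrank K L ≤ r →
      ∀ x : Fin n → L, x ≠ 0 → (∀ k, aeval x (G k) = 0) → (∀ i, ∃ j, aeval x (w i j) ≠ 0) →
      ∑ i, γ i * sig S (ext J) i L (e i) (w i) x ≤
        (N * finrank K L + min (s : ℝ) (N * finrank K L) + ε) * logHeight x + C) := by
    intro J
    by_cases hJ : ∀ v, (J v).card ≤ s
    · obtain ⟨C, hC0, hC⟩ := few (r := r) (N := N) (s := s) G g hG p e w hw hpos γ hγ hε S
        (ext J) (fun v hv => by
          rw [hext]
          simp only [hv, dif_pos]
          exact hJ _)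
      exact ⟨C, hC0, fun _ => hC⟩
    · exact ⟨0, le_rfl, fun h => absurd h hJ⟩
  choose C hC0 hC using key
  refine ⟨∑ J, C J, Finset.sum_nonneg fun J _ => hC0 J, fun I hI L _ _ _ hL x hx hGx hwx => ?_⟩
  set J : {v // v ∈ S} → Finset (Fin q) := fun v => I v.1 with hJ
  have h1 := hC J (fun v => hI v.1 v.2) L hL x hx hGx hwx
  have h2 : ∀ i, sig S (ext J) i L (e i) (w i) x = sig S I i L (e i) (w i) x := by
    intro i
    unfold sig
    refine Finset.sum_congr rfl fun v hv => ?_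
    have h3 : ext J v = I v := by
      rw [hext]
      simp only [hv, dif_pos]
      rfl
    rw [h3]
  simp_rw [h2] at h1
  have h3 : C J ≤ ∑ J, C J := Finset.single_le_sum (f := C) (fun J _ => hC0 J)
    (Finset.mem_univ J)
  linarith

end Pool.Agent.H426.Sub
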