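import Pool.Agent.H426.Sub.Curve
import Pool.Agent.H426.Sub.CycSub

/-!
Disjoint finite subschemes of a curve: few of them at each place, cycles of conjugates outside a
set of small dimension.
-/

set_option autoImplicit false

namespace Pool.Agent.H426.Sub

open MvPolynomial Finset Module NumberField IsDedekindDomain Height
open Pool.Agent.W180.OP Pool.Agent.W180.TP Pool.Agent.NH28
open Pool.Agent.H426.Two Pool.Agent.H426.Noc Pool.Agent.H426.Cyc

variable {K : Type} [Field K] [NumberField K]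

/-- both inequalities, for subschemes in subgeneral position -/
theorem both {n M q N δ μ : ℕ} (hδ : 1 ≤ δ) (hμN : μ ≤ N * δ)
    (G : Fin M → MvPolynomial (Fin n) K) (g : Fin M → ℕ) (hG : ∀ k, (G k).IsHomogeneous (g k))
    (p : Fin q → ℕ) (e : ∀ i, Fin (p i) → ℕ) (w : ∀ i, Fin (p i) → MvPolynomial (Fin n) K)
    (hw : ∀ i j, (w i j).IsHomogeneous (e i j))
    (hpos : Pos (Ideal.span (Set.range G)) (fun i => Ideal.span (Set.range (w i))) N)
    (γ : Fin q → ℝ) (hγ0 : ∀ i, 0 ≤ γ i)
    (hγ : ∀ i, ∀ η : ℝ, 0 < η → ∃ m d : ℕ, 1 ≤ d ∧ γ i - η ≤ (m : ℝ) / d ∧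
      Gen G (w i) m d) {ε : ℝ} (hε : 0 < ε) :
    ∃ B : Set (MvPolynomial (Fin δ × Fin n) K), (∀ p ∈ B, Multi p) ∧ Small G B μ ∧
      ∀ S : Finset (Pl K), ∃ C : ℝ, 0 ≤ C ∧ ∀ I : Pl K → Finset (Fin q),
      ∀ (L : Type) [Field L] [NumberField L] [Algebra K L], finrank K L = δ →
      ∀ x : Fin n → L, x ≠ 0 → (∀ k, aeval x (G k) = 0) → (∀ i, ∃ j, aeval x (w i j) ≠ 0) →
      (∀ s : ℕ, (∀ v ∈ S, (I v).card ≤ s) → ∑ i, γ i * sig S I i L (e i) (w i) x ≤
        (N * δ + min (s : ℝ) (N * δ) + ε) * logHeight x + C) ∧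
      ((∃ σ : Fin δ ≃ (L →ₐ[K] AlgebraicClosure K), ∃ p ∈ B,
        aeval (fun si : Fin δ × Fin n => σ si.1 (x si.2)) p ≠ 0) →
        ∑ i, γ i * sig S I i L (e i) (w i) x ≤
          (2 * (N * δ) - μ + 1 + ε) * logHeight x + C) := by
  classical
  obtain ⟨B, hBm, hBs, hBC⟩ := cyc_sub (δ := δ) (N := N) (μ := μ) hδ hμN G g hG p e w hw hpos γ
    hγ hε
  refine ⟨B, hBm, hBs, fun S => ?_⟩
  obtain ⟨C, hC0, hC⟩ := hBC S
  choose D hD0 hD using fun s : ℕ => few_unif (r := δ) (N := N) (s := s) G g hG p e w hw hpos γ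
    hγ hε S
  choose C1 hC10 hC1 using fun i => slam_ge (e i) (w i) (hw i)
  set E : ℝ := ∑ i, γ i * (S.card * (δ * (C1 i * (finrank ℚ K * δ)))) with hE
  have hE0 : 0 ≤ E := Finset.sum_nonneg fun i _ => mul_nonneg (hγ0 i) (mul_nonneg
    (Nat.cast_nonneg _) (mul_nonneg (Nat.cast_nonneg _) (mul_nonneg (hC10 i) (by positivity))))
  have hDs : 0 ≤ ∑ s ∈ Finset.range (q + 1), D s := Finset.sum_nonneg fun s _ => hD0 s
  refine ⟨C + E + ∑ s ∈ Finset.range (q + 1), D s, by linarith,
    fun I L _ _ _ hL x hx hGx hwx => ⟨fun s hs => ?_, fun hσ => ?_⟩⟩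
  · have hs' : ∀ v ∈ S, (I v).card ≤ min s q := fun v hv => le_min (hs v hv) (by
      have := Finset.card_le_univ (I v)
      rwa [Fintype.card_fin] at this)
    have h1 := hD (min s q) I hs' L hL.le x hx hGx hwx
    have h2 : D (min s q) ≤ ∑ s ∈ Finset.range (q + 1), D s :=
      Finset.single_le_sum (f := D) (fun s _ => hD0 s) (Finset.mem_range.2 (by omega))
    have hh := logHeight_nonneg x
    rw [hL] at h1
    have h3 : min (((min s q : ℕ)) : ℝ) (N * δ) ≤ min (s : ℝ) (N * δ) := by
      refine min_le_min ?_ le_rfl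
      exact_mod_cast min_le_left s q
    have h4 : (N * δ + min (((min s q : ℕ)) : ℝ) (N * δ) + ε) * logHeight x ≤
        (N * δ + min (s : ℝ) (N * δ) + ε) * logHeight x :=
      mul_le_mul_of_nonneg_right (by linarith) hh
    linarith
  · have hT : ∀ u ∈ S.biUnion (fun v => ab L v), ∃ v ∈ S, Ov v u := by
      intro u hu
      obtain ⟨v, hv, huv⟩ := Finset.mem_biUnion.1 hu
      exact ⟨v, hv, mem_ab.1 huv⟩
    have h1 := hC L hL x hx hGx hwx hσ (S.biUnion fun v => ab L v) hT
    have hfq : (finrank ℚ L : ℝ) ≤ finrank ℚ K * δ := by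
      have h4 : finrank ℚ K * finrank K L = finrank ℚ L := finrank_mul_finrank ℚ K L
      rw [← h4, hL]
      push_cast
      exact le_rfl
    have h2 : ∀ i, sig S I i L (e i) (w i) x ≤
        ∑ u ∈ S.biUnion (fun v => ab L v), wt u * slam (av u) (e i) (w i) x +
          S.card * (δ * (C1 i * (finrank ℚ K * δ))) := by
      intro i
      have h6 : 0 ≤ C1 i * (finrank ℚ K * δ) := mul_nonneg (hC10 i) (by positivity)
      rw [Finset.sum_biUnion]
      · unfold sig
        have h3 : ∀ v ∈ S, (if i ∈ I v then ∑ u ∈ ab L v, wt u * slam (av u) (e i) (w i) x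
            else 0) ≤ ∑ u ∈ ab L v, wt u * slam (av u) (e i) (w i) x +
              δ * (C1 i * (finrank ℚ K * δ)) := by
          intro v _
          split_ifs
          · have : (0 : ℝ) ≤ δ * (C1 i * (finrank ℚ K * δ)) :=
              mul_nonneg (Nat.cast_nonneg _) h6
            linarith
          · have h7 : ∀ u ∈ ab L v, -(C1 i * (finrank ℚ K * δ)) ≤
                wt u * slam (av u) (e i) (w i) x := by
              intro u _
              have h8 := hC1 i L u x hx (hwx i)
              have h9 := mul_le_mul_of_nonneg_left hfq (hC10 i)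
              linarith
            have h8 := Finset.sum_le_sum h7
            rw [Finset.sum_const, nsmul_eq_mul] at h8
            have h9 : ((ab L v).card : ℝ) ≤ δ := by exact_mod_cast (card_ab_le L v).trans hL.le
            have h10 := mul_le_mul_of_nonneg_right h9 h6
            linarith
        refine (Finset.sum_le_sum h3).trans ?_
        rw [Finset.sum_add_distrib, Finset.sum_const, nsmul_eq_mul]
      · intro v _ v' _ hne
        rw [Function.onFun, Finset.disjoint_left]
        intro w hw hw'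
        exact hne (ov_unique (mem_ab.1 hw) (mem_ab.1 hw'))
    have h3 : ∑ i, γ i * sig S I i L (e i) (w i) x ≤
        ∑ i, γ i * (∑ u ∈ S.biUnion (fun v => ab L v), wt u * slam (av u) (e i) (w i) x) + E := by
      rw [hE, ← Finset.sum_add_distrib]
      refine Finset.sum_le_sum fun i _ => ?_
      rw [← mul_add]
      exact mul_le_mul_of_nonneg_left (h2 i) (hγ0 i)
    have h4 : ∑ v ∈ S.biUnion (fun v => ab L v), wt v * ∑ i, γ i * slam (av v) (e i) (w i) x =
        ∑ i, γ i * (∑ u ∈ S.biUnion (fun v => ab L v), wt u * slam (av u) (e i) (w i) x) := by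
      simp_rw [Finset.mul_sum]
      rw [Finset.sum_comm]
      refine Finset.sum_congr rfl fun i _ => Finset.sum_congr rfl fun v _ => ?_
      ring
    rw [h4] at h1
    linarith

end Pool.Agent.H426.Sub
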