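import Pool.Agent.H430.Nm.Gen

/-!
A bounded number of divisors at each place: the theorem of helper430 in the form used here.
-/

set_option autoImplicit false

namespace Pool.Agent.H426.Sub

open MvPolynomial Finset Module NumberField IsDedekindDomain Height
open Pool.Agent.W180.OP Pool.Agent.W180.TP Pool.Agent.NH28
open Pool.Agent.H426.Two

variable {K : Type} [Field K] [NumberField K]

theorem genI {n m q N r s : ℕ}
    (G : Fin m → MvPolynomial (Fin n) K) (g : Fin m → ℕ) (hG : ∀ k, (G k).IsHomogeneous (g k))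
    (F : Fin q → MvPolynomial (Fin n) K) (d : Fin q → ℕ) (hd : ∀ i, 1 ≤ d i)
    (hF : ∀ i, (F i).IsHomogeneous (d i))
    (hgp : ∀ J : Fin (N + 1) ↪ Fin q, ∀ (E : Type) [Field E] [Algebra K E] (x : Fin n → E),
      (∀ k, aeval x (G k) = 0) → (∀ k, aeval x (F (J k)) = 0) → x = 0) {ε : ℝ} (hε : 0 < ε)
    (S : Finset (Pl K)) (I : Pl K → Finset (Fin q)) (hI : ∀ v ∈ S, (I v).card ≤ s) :
    ∃ C : ℝ, 0 ≤ C ∧ ∀ (L : Type) [Field L] [NumberField L] [Algebra K L], finrank K L ≤ r →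
      ∀ x : Fin n → L, x ≠ 0 → (∀ k, aeval x (G k) = 0) → (∀ j, aeval x (F j) ≠ 0) →
      ∑ v ∈ S, ∑ w ∈ ab L v, wt w * ∑ j ∈ I v, lam (av w) (d j) (bc L (F j)) x / d j ≤
        (N * finrank K L + min (s : ℝ) (N * finrank K L) + ε) * logHeight x + C := by
  obtain ⟨C, hC0, hC⟩ := Pool.Agent.H430.Nm.gen_aux (r := r) s G g hG F d hd hF hgp hε S
  refine ⟨C, hC0, fun L _ _ _ hL x hx hGx hFx => ?_⟩
  have h1 := hC L hL x hx hGx hFx I hI
  have h2 : ∑ v ∈ S, ∑ w ∈ ab L v, wt w * ∑ j ∈ I v, lam (av w) (d j) (bc L (F j)) x / d j =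
      ∑ v ∈ S, ∑ j ∈ I v, (∑ w ∈ ab L v, wt w * lam (av w) (d j) (bc L (F j)) x) / d j := by
    refine Finset.sum_congr rfl fun v _ => ?_
    simp_rw [Finset.mul_sum, Finset.sum_div]
    rw [Finset.sum_comm]
    refine Finset.sum_congr rfl fun j _ => Finset.sum_congr rfl fun w _ => ?_
    ring
  rw [h2]
  refine h1.trans (le_of_eq ?_)
  push_cast
  rfl

end Pool.Agent.H426.Sub
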